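import Pool.Agent.Lib.MP_d53d42_lc.Defs
import Pool.Agent.Lib.PolyTime.Finite

/-!
# MP_d53d42_lc: the algorithm (definitions)
-/

set_option autoImplicit false

namespace Pool.Agent.Lib.FracIrr

open Pool.Agent.PolyTime

/-! ### Elimination order -/

/-- One step of the search: add a vertex of `V` adjacent to a visited vertex. The state is the
list of visited vertices and the list of pairs (new vertex, its parent), last added first. -/
def growStep (p : List ℕ × List (ℕ × ℕ)) (s : List ℕ × List (ℕ × ℕ)) : List ℕ × List (ℕ × ℕ) :=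
  match (p.2 ++ p.2.map fun e => (e.2, e.1)).find?
      (fun e => decide (e.1 ∈ s.1) && (decide (e.2 ∈ p.1) && !decide (e.2 ∈ s.1))) with
  | none => s
  | some e => (e.2 :: s.1, (e.2, e.1) :: s.2)

/-- The root chosen by the algorithm. -/
def rootOf (V : List ℕ) : ℕ := V.headD 0

/-- The list of pairs (vertex, parent), last added first. -/
def grow (p : List ℕ × List (ℕ × ℕ)) : List (ℕ × ℕ) :=
  (p.1.foldl (fun s _ => growStep p s) ([rootOf p.1], [])).2

/-! ### Bottom-up evaluation -/

/-- Look up the value stored at `v` (`d` if there is none). -/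
def lookup {T : Type} (d : T) (st : List (ℕ × T)) (v : ℕ) : T :=
  ((st.find? fun e => decide (e.1 = v)).map Prod.snd).getD d

/-- Merge the value of the vertex `e.1` into the value of its parent `e.2`. -/
def mergeStep {T : Type} (d : T) (J : T → T → T) (st : List (ℕ × T)) (e : ℕ × ℕ) : List (ℕ × T) :=
  st.map fun x => if x.1 = e.2 then (x.1, J x.2 (lookup d st e.1)) else x

/-- The value computed at the root. -/
def runTree {T : Type} (leaf : ℕ → T) (J : T → T → T) (p : List ℕ × List (ℕ × ℕ)) : T :=
  lookup (leaf 0) ((grow p).foldl (mergeStep (leaf 0) J) (p.1.map fun v => (v, leaf v)))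
    (rootOf p.1)

/-- The rooted tree computed from the input. -/
def rtOf (p : List ℕ × List (ℕ × ℕ)) : RT ℕ := runTree RT.leaf RT.join p

/-! ### Cost tables -/

instance : Enc (WithTop ℕ) := ⟨fun x => enc (α := Option ℕ) x⟩

section cost

variable {A : Type} [Fintype A] {k : ℕ}

/-- Table of a single vertex: minimal weight of a label with given value. -/
def costLeaf (i : A → Fin k) (wt : A → ℕ) : Fin k → WithTop ℕ := fun m =>
  (Finset.univ.filter fun a => i a = m).inf fun a => ((wt a : ℕ) : WithTop ℕ)

/-- Table of a join. -/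
def costJoin (j : Fin k → Fin k → Fin k) (c₁ c₂ : Fin k → WithTop ℕ) : Fin k → WithTop ℕ := fun m =>
  (Finset.univ.filter fun p : Fin k × Fin k => j p.1 p.2 = m).inf fun p => c₁ p.1 + c₂ p.2

/-- The table of a rooted tree: minimal weight of a labelling with given value. -/
def RT.cost {α : Type} (i : A → Fin k) (j : Fin k → Fin k → Fin k) (wt : A → ℕ) :
    RT α → (Fin k → WithTop ℕ)
  | RT.leaf _ => costLeaf i wt
  | RT.join t s => costJoin j (RT.cost i j wt t) (RT.cost i j wt s)

/-- The output: minimal weight over the accepting values (`0` if there is none). -/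
def outOf (F : Fin k → Bool) (c : Fin k → WithTop ℕ) : ℕ :=
  WithTop.untopD 0 ((Finset.univ.filter fun m => F m = true).inf c)

/-- The algorithm. -/
def algo (i : A → Fin k) (j : Fin k → Fin k → Fin k) (F : Fin k → Bool) (wt : A → ℕ)
    (p : List ℕ × List (ℕ × ℕ)) : ℕ :=
  outOf F (runTree (fun _ => costLeaf i wt) (costJoin j) p)

end cost

end Pool.Agent.Lib.FracIrr
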