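import Pool.Agent.Lib.MP_d53d42_lc.Algo

/-!
# MP_d53d42_lc: correctness of the cost tables
-/

set_option autoImplicit false

namespace Pool.Agent.Lib.FracIrr

theorem cost_map {A : Type} [Fintype A] {k : ℕ} (i : A → Fin k) (j : Fin k → Fin k → Fin k)
    (wt : A → ℕ) {α β : Type} (g : α → β) (t : RT α) :
    (t.map g).cost i j wt = t.cost i j wt := by
  induction t with
  | leaf a => rfl
  | join t s iht ihs => simp only [RT.map, RT.cost, iht, ihs]

theorem ct_eval_congr {M α β : Type} (i : β → M) (j : M → M → M) (t : RT α) (σ τ : α → β)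
    (h : ∀ v ∈ t.verts, σ v = τ v) : (t.map σ).eval i j = (t.map τ).eval i j := by
  induction t with
  | leaf a => simp only [RT.map, RT.eval]; rw [h a (by simp [RT.verts])]
  | join t s iht ihs =>
    simp only [RT.map, RT.eval]
    rw [iht fun v hv => h v (by simp [RT.verts, hv]), ihs fun v hv => h v (by simp [RT.verts, hv])]

theorem ct_sum_congr {α β : Type} (t : RT α) (wt : β → ℕ) (σ τ : α → β)
    (h : ∀ v ∈ t.verts, σ v = τ v) :
    (t.verts.map fun v => wt (σ v)).sum = (t.verts.map fun v => wt (τ v)).sum := by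
  congr 1
  exact List.map_congr_left fun v hv => by rw [h v hv]

theorem cost_spec {A : Type} [Fintype A] {k : ℕ} (i : A → Fin k) (j : Fin k → Fin k → Fin k)
    (wt : A → ℕ) {V : Type} [DecidableEq V] (t : RT V) (ht : t.verts.Nodup) (m : Fin k) :
    (∀ σ : V → A, (t.map σ).eval i j = m →
      t.cost i j wt m ≤ (((t.verts.map fun v => wt (σ v)).sum : ℕ) : WithTop ℕ)) ∧
    (t.cost i j wt m ≠ ⊤ → ∃ σ : V → A, (t.map σ).eval i j = m ∧
      t.cost i j wt m = (((t.verts.map fun v => wt (σ v)).sum : ℕ) : WithTop ℕ)) := by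
  induction t generalizing m with
  | leaf a =>
    constructor
    · intro σ hσ
      simp only [RT.cost, costLeaf, RT.verts, List.map_cons, List.map_nil, List.sum_cons,
        List.sum_nil, add_zero]
      exact Finset.inf_le (by simpa [RT.map, RT.eval] using hσ)
    · intro h
      have hne : (Finset.univ.filter fun a : A => i a = m).Nonempty := by
        rw [Finset.nonempty_iff_ne_empty]
        intro h0
        exact h (by simp only [RT.cost, costLeaf]; rw [h0]; rfl)
      obtain ⟨b, hb, hb'⟩ := Finset.exists_mem_eq_inf _ hne fun a => ((wt a : ℕ) : WithTop ℕ)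
      refine ⟨fun _ => b, ?_, ?_⟩
      · simpa [RT.map, RT.eval] using hb
      · simp only [RT.cost, costLeaf, RT.verts, List.map_cons, List.map_nil, List.sum_cons,
          List.sum_nil, add_zero]
        exact hb'
  | join t s iht ihs =>
    simp only [RT.verts] at ht
    rw [List.nodup_append] at ht
    obtain ⟨hnt, hns, hdis⟩ := ht
    constructor
    · intro σ hσ
      simp only [RT.cost, costJoin, RT.verts, List.map_append, List.sum_append]
      have h1 := (iht hnt ((t.map σ).eval i j)).1 σ rfl
      have h2 := (ihs hns ((s.map σ).eval i j)).1 σ rfl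
      refine le_trans (Finset.inf_le (b := ((t.map σ).eval i j, (s.map σ).eval i j)) ?_) ?_
      · simpa [RT.map, RT.eval] using hσ
      · rw [Nat.cast_add]
        exact add_le_add h1 h2
    · intro h
      have hne : (Finset.univ.filter fun p : Fin k × Fin k => j p.1 p.2 = m).Nonempty := by
        rw [Finset.nonempty_iff_ne_empty]
        intro h0
        exact h (by simp only [RT.cost, costJoin]; rw [h0]; rfl)
      obtain ⟨p, hp, hp'⟩ := Finset.exists_mem_eq_inf _ hne
        fun p : Fin k × Fin k => t.cost i j wt p.1 + s.cost i j wt p.2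
      have hval : (RT.join t s).cost i j wt m = t.cost i j wt p.1 + s.cost i j wt p.2 := hp'
      rw [hval] at h ⊢
      have h1 : t.cost i j wt p.1 ≠ ⊤ := fun h0 => h (by rw [h0]; rfl)
      have h2 : s.cost i j wt p.2 ≠ ⊤ := fun h0 => h (by rw [h0]; exact WithTop.add_top _)
      obtain ⟨σ₁, e1, c1⟩ := (iht hnt p.1).2 h1
      obtain ⟨σ₂, e2, c2⟩ := (ihs hns p.2).2 h2
      let σ : V → A := fun v => if v ∈ t.verts then σ₁ v else σ₂ v
      have a1 : ∀ v ∈ t.verts, σ v = σ₁ v := fun v hv => by simp [σ, hv]
      have a2 : ∀ v ∈ s.verts, σ v = σ₂ v := fun v hv => by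
        have : v ∉ t.verts := fun h' => (hdis v h' v hv) rfl
        simp [σ, this]
      refine ⟨σ, ?_, ?_⟩
      · simp only [RT.map, RT.eval]
        rw [ct_eval_congr i j t σ σ₁ a1, ct_eval_congr i j s σ σ₂ a2, e1, e2]
        simpa using hp
      · simp only [RT.verts, List.map_append, List.sum_append]
        rw [ct_sum_congr t wt σ σ₁ a1, ct_sum_congr s wt σ σ₂ a2, c1, c2, Nat.cast_add]

end Pool.Agent.Lib.FracIrr
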