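import Pool.Agent.Lib.MP_d53d42_lc.Defs

/-!
# MP_d53d42_lc: fractional functions on trees as sets of reals
-/

set_option autoImplicit false

namespace Pool.Agent.Lib.FracIrr

open MeasureTheory

namespace CoverAux

section graph

variable {V : Type}

/-- In a tree a vertex has at most one neighbour which is not farther from a given vertex. -/
lemma parent_unique {G : SimpleGraph V} (hG : G.IsTree) {r v w w' : V} (h : G.Adj v w)
    (h' : G.Adj v w') (hd : G.dist w r ≤ G.dist v r) (hd' : G.dist w' r ≤ G.dist v r) :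
    w = w' := by
  classical
  obtain ⟨p, hp, -⟩ := hG.connected.exists_path_of_dist v r
  have key : ∀ w : V, G.Adj v w → G.dist w r ≤ G.dist v r → w = p.snd := by
    intro w h hd
    obtain ⟨q, hq, hql⟩ := hG.connected.exists_path_of_dist w r
    have hv : v ∉ q.support := by
      intro hv
      have h1 := G.dist_le (q.dropUntil v hv)
      have h2 := congrArg SimpleGraph.Walk.length (q.take_spec hv)
      rw [SimpleGraph.Walk.length_append, hql] at h2
      have h3 : (q.takeUntil v hv).length ≠ 0 := by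
        intro h0
        exact h.ne (SimpleGraph.Walk.eq_of_length_eq_zero h0).symm
      omega
    have h4 : (SimpleGraph.Walk.cons h q).IsPath := (SimpleGraph.Walk.cons_isPath_iff h q).mpr
      ⟨hq, hv⟩
    have h5 := Subtype.mk.inj
      ((hG.isAcyclic.subsingleton_path v r).elim ⟨_, h4⟩ ⟨p, hp⟩)
    rw [← h5]
    simp
  rw [key w h hd, key w' h' hd']

/-- A nonempty finite set of vertices of a tree has an element with at most one neighbour in the
set. -/
lemma exists_leaf {G : SimpleGraph V} (hG : G.IsTree) {s : Finset V} (hs : s.Nonempty) :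
    ∃ v ∈ s, ∀ w ∈ s, ∀ w' ∈ s, G.Adj v w → G.Adj v w' → w = w' := by
  obtain ⟨r⟩ := hG.connected.nonempty
  obtain ⟨v, hv, hmax⟩ := s.exists_max_image (fun v => G.dist v r) hs
  exact ⟨v, hv, fun w hw w' hw' h h' => parent_unique hG h h' (hmax w hw) (hmax w' hw')⟩

end graph

section meas

/-- Lebesgue measure on `[0, 1)`. -/
noncomputable def mu : Measure ℝ := volume.restrict (Set.Ico 0 1)

instance : IsProbabilityMeasure mu := ⟨by simp [mu]⟩

lemma mu_null {S : Set ℝ} (h : S ∩ Set.Ico 0 1 = ∅) (hS : MeasurableSet S) : mu.real S = 0 := by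
  rw [mu, measureReal_restrict_apply hS, h, measureReal_empty]

lemma mu_Ico (x y : ℝ) : mu.real (Set.Ico y x) ≤ |x - y| := by
  have h1 : mu.real (Set.Ico y x) ≤ volume.real (Set.Ico y x) := by
    exact ENNReal.toReal_mono (by simp) (Measure.restrict_le_self _)
  refine h1.trans ?_
  rw [Real.volume_real_Ico]
  exact max_le (le_abs_self _) (abs_nonneg _)

/-- Selection of intermediate sets. -/
lemma select {E E' : Set ℝ} (hE : MeasurableSet E) (hE' : MeasurableSet E') (h : E ⊆ E') {a : ℝ}
    (h1 : mu.real E ≤ a) (h2 : a ≤ mu.real E') :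
    ∃ B : Set ℝ, MeasurableSet B ∧ E ⊆ B ∧ B ⊆ E' ∧ mu.real B = a := by
  obtain ⟨g, hg⟩ : ∃ g : ℝ → ℝ, g = fun t => mu.real (E ∪ (E' ∩ Set.Iio t)) := ⟨_, rfl⟩
  have hcont : Continuous g := by
    refine (LipschitzWith.of_le_add fun x y => ?_).continuous
    rw [hg, Real.dist_eq]
    have h3 : E ∪ (E' ∩ Set.Iio x) ⊆ (E ∪ (E' ∩ Set.Iio y)) ∪ Set.Ico y x := by
      rintro z (hz | ⟨hz, hz'⟩)
      · exact Or.inl (Or.inl hz)
      · rcases lt_or_ge z y with h4 | h4
        · exact Or.inl (Or.inr ⟨hz, h4⟩)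
        · exact Or.inr ⟨h4, hz'⟩
    refine (measureReal_mono h3).trans ((measureReal_union_le _ _).trans ?_)
    exact add_le_add le_rfl (mu_Ico x y)
  have h0 : g 0 ≤ a := by
    rw [hg]
    refine (measureReal_union_le _ _).trans ?_
    rw [mu_null (S := E' ∩ Set.Iio 0) ?_ (hE'.inter measurableSet_Iio), add_zero]
    · exact h1
    · ext z
      simp only [Set.mem_inter_iff, Set.mem_Iio, Set.mem_Ico, Set.mem_empty_iff_false, iff_false]
      rintro ⟨⟨_, h5⟩, h6, _⟩
      exact absurd h5 (not_lt.mpr h6)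
  have h3 : a ≤ g 1 := by
    refine h2.trans ?_
    have h4 : E' ⊆ (E ∪ (E' ∩ Set.Iio 1)) ∪ Set.Ici 1 := by
      intro z hz
      rcases lt_or_ge z 1 with h5 | h5
      · exact Or.inl (Or.inr ⟨hz, h5⟩)
      · exact Or.inr h5
    refine (measureReal_mono h4).trans ((measureReal_union_le _ _).trans ?_)
    rw [mu_null (S := Set.Ici 1) ?_ measurableSet_Ici, add_zero, hg]
    ext z
    simp only [Set.mem_inter_iff, Set.mem_Ici, Set.mem_Ico, Set.mem_empty_iff_false, iff_false]
    rintro ⟨h5, _, h6⟩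
    exact absurd h6 (not_lt.mpr h5)
  obtain ⟨t, -, ht⟩ := intermediate_value_Icc zero_le_one hcont.continuousOn ⟨h0, h3⟩
  rw [hg] at ht
  exact ⟨_, hE.union (hE'.inter measurableSet_Iio), Set.subset_union_left,
    Set.union_subset h Set.inter_subset_left, ht⟩

/-- The constraint of a finite set of indices. -/
def Con {V : Type} (f : V → ℝ) (B : V → Set ℝ) (N : Finset V) : Prop :=
  (∑ x ∈ N, f x ≤ 1 → ∀ x ∈ N, ∀ y ∈ N, x ≠ y → mu.real (B x ∩ B y) = 0) ∧
  (1 ≤ ∑ x ∈ N, f x → mu.real (⋃ x ∈ N, B x)ᶜ = 0)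

lemma con_congr {V : Type} {f : V → ℝ} {B B' : V → Set ℝ} {N : Finset V}
    (h : ∀ x ∈ N, B x = B' x) (hc : Con f B N) : Con f B' N := by
  refine ⟨fun h1 x hx y hy hxy => ?_, fun h1 => ?_⟩
  · rw [← h x hx, ← h y hy]
    exact hc.1 h1 x hx y hy hxy
  · have h2 : (⋃ x ∈ N, B' x) = ⋃ x ∈ N, B x := Set.iUnion₂_congr fun x hx => (h x hx).symm
    rw [h2]
    exact hc.2 h1

lemma con_insert {V : Type} [DecidableEq V] {f : V → ℝ} (h0 : ∀ v, 0 ≤ f v) {B : V → Set ℝ}
    {N : Finset V} (hc : Con f B N) {v : V} (hv : v ∉ N) {C : Set ℝ}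
    (h1 : f v + ∑ x ∈ N, f x ≤ 1 → C ⊆ (⋃ x ∈ N, B x)ᶜ)
    (h2 : 1 ≤ f v + ∑ x ∈ N, f x → mu.real ((⋃ x ∈ N, B x)ᶜ \ C) = 0) :
    Con f (Function.update B v C) (insert v N) := by
  have hne : ∀ x ∈ N, Function.update B v C x = B x := fun x hx =>
    Function.update_of_ne (by rintro rfl; exact hv hx) _ _
  have hsum : ∑ x ∈ insert v N, f x = f v + ∑ x ∈ N, f x := Finset.sum_insert hv
  refine ⟨fun h3 => ?_, fun h3 => ?_⟩
  · rw [hsum] at h3
    have h4 := h1 h3
    have h5 : ∀ x ∈ N, C ∩ B x = ∅ := by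
      intro x hx
      ext z
      simp only [Set.mem_inter_iff, Set.mem_empty_iff_false, iff_false]
      rintro ⟨h6, h7⟩
      exact h4 h6 (Set.mem_iUnion₂.mpr ⟨x, hx, h7⟩)
    intro x hx y hy hxy
    rw [Finset.mem_insert] at hx hy
    rcases hx with rfl | hx
    · rcases hy with rfl | hy
      · exact absurd rfl hxy
      · rw [Function.update_self, hne y hy, h5 y hy, measureReal_empty]
    · rcases hy with rfl | hy
      · rw [Function.update_self, hne x hx, Set.inter_comm, h5 x hx, measureReal_empty]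
      · rw [hne x hx, hne y hy]
        exact hc.1 (by have := h0 v; linarith) x hx y hy hxy
  · rw [hsum] at h3
    have h4 : (⋃ x ∈ insert v N, Function.update B v C x)ᶜ = (⋃ x ∈ N, B x)ᶜ \ C := by
      rw [Finset.set_biUnion_insert, Function.update_self, Set.iUnion₂_congr hne]
      ext z
      simp only [Set.mem_compl_iff, Set.mem_union, Set.mem_sdiff]
      tauto
    rw [h4]
    exact h2 h3

/-- The extension step. -/
lemma extend {V : Type} [DecidableEq V] {f : V → ℝ} (h0 : ∀ v, 0 ≤ f v) (h1 : ∀ v, f v ≤ 1)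
    {B : V → Set ℝ} (hB : ∀ x, MeasurableSet (B x)) {N : Finset V}
    (hBf : ∀ x ∈ N, mu.real (B x) = f x) (hc : Con f B N) {p v : V} (hp : p ∈ N) (hv : v ∉ N) :
    ∃ C : Set ℝ, MeasurableSet C ∧ mu.real C = f v ∧
      Con f (Function.update B v C) (insert v N) ∧ Con f (Function.update B v C) {v, p} := by
  obtain ⟨R, hR⟩ : ∃ R : Set ℝ, R = (⋃ x ∈ N, B x)ᶜ := ⟨_, rfl⟩
  obtain ⟨D, hD⟩ : ∃ D : Set ℝ, D = (B p)ᶜ := ⟨_, rfl⟩
  have hUm : MeasurableSet (⋃ x ∈ N, B x) := N.measurableSet_biUnion fun x _ => hB x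
  have hRm : MeasurableSet R := by
    rw [hR]
    exact hUm.compl
  have hDm : MeasurableSet D := by
    rw [hD]
    exact (hB p).compl
  have hRD : R ⊆ D := by
    rw [hR, hD]
    exact Set.compl_subset_compl.mpr fun z hz => Set.mem_iUnion₂.mpr ⟨p, hp, hz⟩
  have hDr : mu.real D = 1 - f p := by
    rw [hD, probReal_compl_eq_one_sub (hB p), hBf p hp]
  have hR1 : ∑ x ∈ N, f x ≤ 1 → mu.real R = 1 - ∑ x ∈ N, f x := by
    intro h2
    rw [hR, probReal_compl_eq_one_sub hUm, measureReal_biUnion_finset₀]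
    · rw [Finset.sum_congr rfl hBf]
    · intro x hx y hy hxy
      have h3 := hc.1 h2 x hx y hy hxy
      rwa [measureReal_eq_zero_iff] at h3
    · exact fun x _ => (hB x).nullMeasurableSet
  have hR2 : 1 ≤ ∑ x ∈ N, f x → mu.real R = 0 := by
    rw [hR]
    exact hc.2
  have hcp : Con f B {p} := by
    refine ⟨fun _ x hx y hy hxy => ?_, fun h2 => ?_⟩
    · rw [Finset.mem_singleton] at hx hy
      exact absurd (hx.trans hy.symm) hxy
    · rw [Finset.sum_singleton] at h2
      rw [Finset.set_biUnion_singleton, ← hD, hDr]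
      linarith [h1 p]
  have hvp : v ∉ ({p} : Finset V) := by
    rw [Finset.mem_singleton]
    rintro rfl
    exact hv hp
  have hpN : f p ≤ ∑ x ∈ N, f x := Finset.single_le_sum (fun x _ => h0 x) hp
  -- it suffices to find a set with four properties
  obtain ⟨C, hCm, hCf, c1, c2, c3, c4⟩ : ∃ C : Set ℝ, MeasurableSet C ∧ mu.real C = f v ∧
      (f v + ∑ x ∈ N, f x ≤ 1 → C ⊆ R) ∧ (1 ≤ f v + ∑ x ∈ N, f x → mu.real (R \ C) = 0) ∧
      (f v + f p ≤ 1 → C ⊆ D) ∧ (1 ≤ f v + f p → mu.real (D \ C) = 0) := by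
    have hdiff : ∀ X C : Set ℝ, MeasurableSet C → C ⊆ X → mu.real X ≤ mu.real C →
        mu.real (X \ C) = 0 := by
      intro X C hC hCX h2
      rw [measureReal_sdiff hCX hC]
      refine le_antisymm (by linarith) ?_
      linarith [measureReal_mono (μ := mu) hCX]
    have hempty : ∀ X C : Set ℝ, X ⊆ C → mu.real (X \ C) = 0 := by
      intro X C h2
      rw [Set.sdiff_eq_empty.mpr h2, measureReal_empty]
    rcases le_or_gt (f v + ∑ x ∈ N, f x) 1 with h2 | h2
    · have h3 := hR1 (by linarith [h0 v])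
      obtain ⟨C, hC, -, hCR, hCf⟩ := select MeasurableSet.empty hRm (Set.empty_subset _)
        (a := f v) (by rw [measureReal_empty]; exact h0 v) (by rw [h3]; linarith)
      refine ⟨C, hC, hCf, fun _ => hCR, fun h4 => ?_, fun _ => hCR.trans hRD, fun h4 => ?_⟩
      · exact hdiff R C hC hCR (by linarith)
      · exact hdiff D C hC (hCR.trans hRD) (by linarith)
    · have h3 : mu.real R ≤ f v := by
        rcases le_or_gt (∑ x ∈ N, f x) 1 with h4 | h4
        · rw [hR1 h4]
          linarith
        · rw [hR2 h4.le]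
          exact h0 v
      rcases le_or_gt (f v + f p) 1 with h4 | h4
      · obtain ⟨C, hC, hRC, hCD, hCf⟩ := select hRm hDm hRD h3 (by rw [hDr]; linarith)
        refine ⟨C, hC, hCf, fun h5 => absurd h5 (not_le.mpr h2), fun _ => hempty _ _ hRC,
          fun _ => hCD, fun h5 => hdiff D C hC hCD (by linarith)⟩
      · obtain ⟨C, hC, hDC, -, hCf⟩ := select hDm MeasurableSet.univ (Set.subset_univ _)
          (a := f v) (by rw [hDr]; linarith) (by rw [probReal_univ]; exact h1 v)
        exact ⟨C, hC, hCf, fun h5 => absurd h5 (not_le.mpr h2),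
          fun _ => hempty _ _ (hRD.trans hDC), fun h5 => absurd h5 (not_le.mpr h4),
          fun _ => hempty _ _ hDC⟩
  rw [hR] at c1 c2
  rw [hD] at c3 c4
  refine ⟨C, hCm, hCf, con_insert h0 hc hv c1 c2, con_insert h0 hcp hvp ?_ ?_⟩
  · rwa [Finset.set_biUnion_singleton, Finset.sum_singleton]
  · rwa [Finset.set_biUnion_singleton, Finset.sum_singleton]

end meas

open Classical in
/-- The inductive claim. -/
theorem cover_finset {V : Type} {G : SimpleGraph V} (hG : G.IsTree) {f : V → ℝ}
    (h0 : ∀ v, 0 ≤ f v) (h1 : ∀ v, f v ≤ 1) (n : ℕ) : ∀ s : Finset V, s.card = n →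
    ∃ B : V → Set ℝ, (∀ v, MeasurableSet (B v)) ∧ (∀ v ∈ s, mu.real (B v) = f v) ∧
      ∀ u ∈ s, Con f B (s.filter fun x => x = u ∨ G.Adj u x) := by
  induction n with
  | zero =>
    intro s hs
    rw [Finset.card_eq_zero] at hs
    subst hs
    exact ⟨fun _ => ∅, fun _ => MeasurableSet.empty, by simp, by simp⟩
  | succ n ih =>
    intro s hs
    obtain ⟨v, hv, huniq⟩ := exists_leaf hG (s := s) (Finset.card_pos.mp (by omega))
    obtain ⟨s', hs'⟩ : ∃ s', s' = s.erase v := ⟨_, rfl⟩
    have hss : s = insert v s' := by rw [hs', Finset.insert_erase hv]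
    have hvs' : v ∉ s' := by rw [hs']; exact Finset.notMem_erase v s
    obtain ⟨B, hB, hBf, hBc⟩ := ih s' (by rw [hs', Finset.card_erase_of_mem hv, hs]; rfl)
    have hsub : ∀ x ∈ s', x ∈ s := fun x hx => by rw [hss]; exact Finset.mem_insert_of_mem hx
    -- neighbourhoods of vertices not adjacent to `v`
    have hfar : ∀ u ∈ s', ¬ G.Adj u v → (s.filter fun x => x = u ∨ G.Adj u x) =
        s'.filter fun x => x = u ∨ G.Adj u x := by
      intro u hu hadj
      rw [hss, Finset.filter_insert, if_neg]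
      rintro (rfl | h)
      · exact hvs' hu
      · exact hadj h
    have hfin : ∀ C : Set ℝ, MeasurableSet C → mu.real C = f v →
        (∀ u ∈ s', G.Adj u v → Con f (Function.update B v C)
          (s.filter fun x => x = u ∨ G.Adj u x)) →
        Con f (Function.update B v C) (s.filter fun x => x = v ∨ G.Adj v x) →
        ∃ B : V → Set ℝ, (∀ v, MeasurableSet (B v)) ∧ (∀ v ∈ s, mu.real (B v) = f v) ∧
          ∀ u ∈ s, Con f B (s.filter fun x => x = u ∨ G.Adj u x) := by
      intro C hC hCf c1 c2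
      refine ⟨Function.update B v C, fun x => ?_, fun x hx => ?_, fun u hu => ?_⟩
      · rcases eq_or_ne x v with rfl | hx
        · rw [Function.update_self]
          exact hC
        · rw [Function.update_of_ne hx]
          exact hB x
      · rcases eq_or_ne x v with rfl | hxv
        · rw [Function.update_self]
          exact hCf
        · rw [Function.update_of_ne hxv]
          rw [hss, Finset.mem_insert] at hx
          exact hBf x (hx.resolve_left hxv)
      · rw [hss, Finset.mem_insert] at hu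
        rcases hu with rfl | hu
        · exact c2
        · by_cases hadj : G.Adj u v
          · exact c1 u hu hadj
          · rw [hfar u hu hadj]
            refine con_congr (fun x hx => ?_) (hBc u hu)
            rw [Function.update_of_ne]
            rintro rfl
            exact hvs' (Finset.mem_filter.mp hx).1
    by_cases hex : ∃ p ∈ s', G.Adj v p
    · obtain ⟨p, hp, hvp⟩ := hex
      obtain ⟨C, hC, hCf, c1, c2⟩ := extend h0 h1 hB
        (N := s'.filter fun x => x = p ∨ G.Adj p x)
        (fun x hx => hBf x (Finset.mem_filter.mp hx).1) (hBc p hp) (p := p) (v := v)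
        (Finset.mem_filter.mpr ⟨hp, Or.inl rfl⟩) (fun h => hvs' (Finset.mem_filter.mp h).1)
      refine hfin C hC hCf (fun u hu hadj => ?_) ?_
      · have hup : u = p := huniq u (hsub u hu) p (hsub p hp) hadj.symm hvp
        subst hup
        have h2 : (s.filter fun x => x = u ∨ G.Adj u x) =
            insert v (s'.filter fun x => x = u ∨ G.Adj u x) := by
          rw [hss, Finset.filter_insert, if_pos (Or.inr hadj)]
        rw [h2]
        exact c1
      · have h2 : (s.filter fun x => x = v ∨ G.Adj v x) = {v, p} := by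
          ext x
          rw [Finset.mem_filter, Finset.mem_insert, Finset.mem_singleton]
          constructor
          · rintro ⟨hx, rfl | h⟩
            · exact Or.inl rfl
            · exact Or.inr (huniq x hx p (hsub p hp) h hvp)
          · rintro (rfl | rfl)
            · exact ⟨hv, Or.inl rfl⟩
            · exact ⟨hsub _ hp, Or.inr hvp⟩
        rw [h2]
        exact c2
    · push Not at hex
      obtain ⟨C, hC, -, -, hCf⟩ := select MeasurableSet.empty MeasurableSet.univ
        (Set.empty_subset _) (a := f v) (by rw [measureReal_empty]; exact h0 v)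
        (by rw [probReal_univ]; exact h1 v)
      refine hfin C hC hCf (fun u hu hadj => absurd hadj.symm (hex u hu)) ?_
      have h2 : (s.filter fun x => x = v ∨ G.Adj v x) = insert v ∅ := by
        ext x
        rw [Finset.mem_filter, Finset.mem_insert]
        constructor
        · rintro ⟨hx, rfl | h⟩
          · exact Or.inl rfl
          · rw [hss, Finset.mem_insert] at hx
            rcases hx with rfl | hx
            · exact Or.inl rfl
            · exact absurd h (hex x hx)
        · rintro (rfl | h)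
          · exact ⟨hv, Or.inl rfl⟩
          · exact absurd h (Finset.notMem_empty _)
      rw [h2]
      refine con_insert h0 ⟨by simp, by norm_num⟩ (Finset.notMem_empty v) ?_ ?_
      · intro _
        simp
      · intro h3
        rw [Finset.sum_empty, add_zero] at h3
        have h4 : (⋃ x ∈ (∅ : Finset V), B x)ᶜ \ C = Cᶜ := by
          ext z
          simp
        rw [h4, probReal_compl_eq_one_sub hC, hCf]
        linarith [h1 v]

end CoverAux

open CoverAux in
theorem tree_cover {V : Type} [Fintype V] (G : SimpleGraph V) (hG : G.IsTree) (f : V → ℝ)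
    (h0 : ∀ v, 0 ≤ f v) (h1 : ∀ v, f v ≤ 1) :
    ∃ B : V → Set ℝ, (∀ v, MeasurableSet (B v)) ∧ (∀ v, B v ⊆ Set.Ico 0 1) ∧
      (∀ v, volume (B v) = ENNReal.ofReal (f v)) ∧
      (∀ u, nsum G f u ≤ 1 → ∀ x y, x ≠ y → (x = u ∨ G.Adj u x) → (y = u ∨ G.Adj u y) →
        volume (B x ∩ B y) = 0) ∧
      (∀ u, 1 ≤ nsum G f u →
        volume (Set.Ico (0 : ℝ) 1 \ ⋃ x ∈ {x | x = u ∨ G.Adj u x}, B x) = 0) := by
  classical
  obtain ⟨B, hB, hBf, hBc⟩ := cover_finset hG h0 h1 _ Finset.univ rfl
  have hnsum : ∀ u, ∑ x ∈ Finset.univ.filter (fun x => x = u ∨ G.Adj u x), f x = nsum G f u := by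
    intro u
    rw [nsum]
  refine ⟨fun v => B v ∩ Set.Ico 0 1, fun v => (hB v).inter measurableSet_Ico,
    fun v => Set.inter_subset_right, fun v => ?_, fun u hu x y hxy hx hy => ?_, fun u hu => ?_⟩
  · have h2 := hBf v (Finset.mem_univ v)
    rw [← h2, ofReal_measureReal, mu, Measure.restrict_apply (hB v)]
  · have h2 := (hBc u (Finset.mem_univ u)).1 (by rw [hnsum]; exact hu) x (by simpa using hx) y
      (by simpa using hy) hxy
    rw [measureReal_eq_zero_iff, mu, Measure.restrict_apply ((hB x).inter (hB y))] at h2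
    rw [← h2]
    congr 1
    ext z
    simp only [Set.mem_inter_iff]
    tauto
  · have h2 := (hBc u (Finset.mem_univ u)).2 (by rw [hnsum]; exact hu)
    rw [measureReal_eq_zero_iff, mu, Measure.restrict_apply
      (Finset.measurableSet_biUnion _ fun x _ => hB x).compl] at h2
    rw [← h2]
    congr 1
    ext z
    simp only [Set.mem_sdiff, Set.mem_iUnion, Set.mem_inter_iff, Set.mem_compl_iff,
      Finset.mem_filter, Finset.mem_univ, true_and, Set.mem_ofPred_eq, exists_prop]
    constructor
    · rintro ⟨hz, h3⟩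
      refine ⟨?_, hz⟩
      rintro ⟨x, hx, hzx⟩
      exact h3 ⟨x, hx, hzx, hz⟩
    · rintro ⟨h3, hz⟩
      refine ⟨hz, ?_⟩
      rintro ⟨x, hx, hzx, _⟩
      exact h3 ⟨x, hx, hzx⟩

end Pool.Agent.Lib.FracIrr
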