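import Mathlib

/-!
# MP_d53d42_lc: definitions

Irredundant functions, maximal irredundant functions, the fractional irredundance number, and the
combinatorial notions used to compute it on trees.
-/

set_option autoImplicit false

namespace Pool.Agent.Lib.FracIrr

section graph

variable {V : Type} [Fintype V]

open Classical in
/-- `f(N[u])`: the sum of `f` over the closed neighbourhood of `u`. -/
noncomputable def nsum (G : SimpleGraph V) (f : V → ℝ) (u : V) : ℝ :=
  ∑ x with (x = u ∨ G.Adj u x), f x

/-- A function `f : V → [0,1]` is irredundant if every vertex `v` with `f v > 0` has some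
`u ∈ N[v]` with `f(N[u]) = 1`. -/
def Irredundant (G : SimpleGraph V) (f : V → ℝ) : Prop :=
  (∀ v, 0 ≤ f v ∧ f v ≤ 1) ∧ ∀ v, 0 < f v → ∃ u, (u = v ∨ G.Adj v u) ∧ nsum G f u = 1

/-- An irredundant function is maximal if no other irredundant function dominates it. -/
def MaximalIrredundant (G : SimpleGraph V) (f : V → ℝ) : Prop :=
  Irredundant G f ∧ ∀ g, Irredundant G g → (∀ v, f v ≤ g v) → g = f

/-- The fractional irredundance number: the infimum of the weights of the maximal irredundant
functions. -/
noncomputable def irf (G : SimpleGraph V) : ℝ :=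
  sInf {w : ℝ | ∃ f : V → ℝ, MaximalIrredundant G f ∧ w = ∑ v, f v}

/-! ### Combinatorial types -/

open Classical in
/-- Number of marked vertices in the closed neighbourhood of `u`. -/
noncomputable def cnt (G : SimpleGraph V) (X : V → Bool) (u : V) : ℕ :=
  (Finset.univ.filter fun x => (x = u ∨ G.Adj u x) ∧ X x = true).card

/-- Number of marked vertices. -/
def weight (X : V → Bool) : ℕ := (Finset.univ.filter fun x => X x = true).card

/-- Support of a function, as a marking. -/
noncomputable def suppOf (f : V → ℝ) : V → Bool := fun v => decide (0 < f v)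

/-- Status of each vertex: `0` if `f(N[u]) = 1`, `1` if `f(N[u]) < 1`, `2` if `f(N[u]) > 1`. -/
noncomputable def statOf (G : SimpleGraph V) (f : V → ℝ) : V → Fin 3 := fun u =>
  if nsum G f u = 1 then 0 else if nsum G f u < 1 then 1 else 2

/-- The marking `X` satisfies the (weak) constraints of the type `(S, st)`. -/
def QI (G : SimpleGraph V) (S : V → Bool) (st : V → Fin 3) (X : V → Bool) : Prop :=
  ∀ u, (X u = true → S u = true) ∧ (st u = 0 → cnt G X u = 1) ∧ (st u = 1 → cnt G X u ≤ 1) ∧
    (st u = 2 → 1 ≤ cnt G X u)

/-- The type `(S, st)` can be extended: functions of this type are not maximal. -/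
def Ext (G : SimpleGraph V) (S : V → Bool) (st : V → Fin 3) : Prop :=
  ∃ X W : V → Bool, (∃ x, X x = true) ∧ (∀ u, W u = true → st u = 1) ∧
    (∀ u, W u = true → cnt G X u = 1) ∧ (∀ x, X x = true → cnt G W x = 1) ∧
    ∀ v, (S v = true ∨ X v = true) →
      ∃ u, (u = v ∨ G.Adj v u) ∧ ((st u = 0 ∧ cnt G X u = 0) ∨ W u = true)

/-- The types of maximal irredundant functions of a tree. -/
def Good (G : SimpleGraph V) (S : V → Bool) (st : V → Fin 3) : Prop :=
  (∀ v, S v = true → ∃ u, (u = v ∨ G.Adj v u) ∧ st u = 0) ∧
  (∀ v, S v = true → ∃ X, QI G S st X ∧ X v = true) ∧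
  (∀ u, st u = 1 → ∃ X, QI G S st X ∧ cnt G X u = 0) ∧
  (∀ u, st u = 2 → ∃ X, QI G S st X ∧ 2 ≤ cnt G X u) ∧
  ¬ Ext G S st

end graph

/-! ### Rooted trees built by joining -/

/-- Rooted trees: a single vertex, or `t` with the root of `s` attached as a new child of the
root of `t`. -/
inductive RT (α : Type)
  | leaf (a : α) : RT α
  | join (t s : RT α) : RT α

namespace RT

variable {α β M : Type}

/-- The root. -/
def root : RT α → α
  | leaf a => a
  | join t _ => root t

/-- The list of vertices. -/
def verts : RT α → List α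
  | leaf a => [a]
  | join t s => verts t ++ verts s

/-- The adjacency relation. -/
def adj : RT α → α → α → Prop
  | leaf _, _, _ => False
  | join t s, x, y => adj t x y ∨ adj s x y ∨ (x = root t ∧ y = root s) ∨
      (x = root s ∧ y = root t)

/-- Relabelling. -/
def map (g : α → β) : RT α → RT β
  | leaf a => leaf (g a)
  | join t s => join (map g t) (map g s)

/-- Evaluation in an algebra. -/
def eval (i : α → M) (j : M → M → M) : RT α → M
  | leaf a => i a
  | join t s => j (eval i j t) (eval i j s)

/-- `t` represents the graph `G`. -/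
def Represents {V : Type} (t : RT V) (G : SimpleGraph V) : Prop :=
  t.verts.Nodup ∧ (∀ v, v ∈ t.verts) ∧ ∀ x y, G.Adj x y ↔ t.adj x y

end RT

/-- A property of labelled graphs is recognisable (on trees) if, on every tree represented by
`t`, it is decided by the evaluation of the labelled tree in a fixed finite algebra. -/
def Recog {A : Type} (P : ∀ (V : Type) [Fintype V], SimpleGraph V → (V → A) → Prop) : Prop :=
  ∃ (k : ℕ) (i : A → Fin k) (j : Fin k → Fin k → Fin k) (F : Fin k → Prop),
    ∀ (V : Type) [Fintype V] (G : SimpleGraph V) (t : RT V), t.Represents G → ∀ σ : V → A,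
      (P V G σ ↔ F ((t.map σ).eval i j))

/-! ### Inputs -/

/-- The graph given by a vertex list and an edge list (each edge in either direction). -/
def graphOf (V : List ℕ) (E : List (ℕ × ℕ)) : SimpleGraph {v : ℕ // v ∈ V} where
  Adj a b := a ≠ b ∧ ((a.1, b.1) ∈ E ∨ (b.1, a.1) ∈ E)
  symm := ⟨fun _ _ h => ⟨h.1.symm, h.2.symm⟩⟩
  loopless := ⟨fun _ h => h.1 rfl⟩

end Pool.Agent.Lib.FracIrr
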