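import Pool.Agent.Lib.MP_d53d42_lc.Algo

/-!
# MP_d53d42_lc: elimination order and the rooted tree of the input
-/

set_option autoImplicit false

namespace Pool.Agent.Lib.FracIrr

namespace OrderAux

/-! ### The store -/

theorem lookup_map {T T' : Type} (φ : T → T') (d : T) (st : List (ℕ × T)) (v : ℕ) :
    lookup (φ d) (st.map fun x => (x.1, φ x.2)) v = φ (lookup d st v) := by
  unfold lookup
  rw [List.find?_map]
  have h : ((fun e : ℕ × T' => decide (e.1 = v)) ∘ fun x : ℕ × T => (x.1, φ x.2))
      = fun e : ℕ × T => decide (e.1 = v) := rfl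
  rw [h]
  cases st.find? (fun e => decide (e.1 = v)) with
  | none => rfl
  | some x => rfl

theorem mergeStep_map {T T' : Type} (φ : T → T') (d : T) (J : T → T → T) (J' : T' → T' → T')
    (h2 : ∀ a b, φ (J a b) = J' (φ a) (φ b)) (st : List (ℕ × T)) (e : ℕ × ℕ) :
    (mergeStep d J st e).map (fun x => (x.1, φ x.2))
      = mergeStep (φ d) J' (st.map fun x => (x.1, φ x.2)) e := by
  unfold mergeStep
  rw [List.map_map, List.map_map, lookup_map]
  apply List.map_congr_left
  intro x _
  simp only [Function.comp_apply]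
  by_cases hx : x.1 = e.2
  · rw [if_pos hx, if_pos hx]
    simp [h2]
  · rw [if_neg hx, if_neg hx]

theorem foldl_map {T T' : Type} (φ : T → T') (d : T) (J : T → T → T) (J' : T' → T' → T')
    (h2 : ∀ a b, φ (J a b) = J' (φ a) (φ b)) (L : List (ℕ × ℕ)) :
    ∀ st : List (ℕ × T), (L.foldl (mergeStep d J) st).map (fun x => (x.1, φ x.2))
      = L.foldl (mergeStep (φ d) J') (st.map fun x => (x.1, φ x.2)) := by
  induction L with
  | nil => intro st; rfl
  | cons e L ih =>
    intro st
    rw [List.foldl_cons, List.foldl_cons, ih, mergeStep_map φ d J J' h2]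

theorem lookup_mergeStep {T : Type} (d : T) (J : T → T → T) (st : List (ℕ × T)) (e : ℕ × ℕ)
    (w : ℕ) (hw : w ∈ st.map Prod.fst) :
    lookup d (mergeStep d J st e) w
      = if w = e.2 then J (lookup d st w) (lookup d st e.1) else lookup d st w := by
  unfold mergeStep
  generalize hc : lookup d st e.1 = c
  unfold lookup
  rw [List.find?_map]
  have h : ((fun x : ℕ × T => decide (x.1 = w)) ∘
      fun x : ℕ × T => if x.1 = e.2 then (x.1, J x.2 c) else x)
      = fun x : ℕ × T => decide (x.1 = w) := by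
    funext x
    simp only [Function.comp_apply]
    by_cases hx : x.1 = e.2
    · rw [if_pos hx]
    · rw [if_neg hx]
  rw [h]
  cases hf : st.find? (fun x => decide (x.1 = w)) with
  | none =>
    exfalso
    rw [List.find?_eq_none] at hf
    obtain ⟨x, hx, hxw⟩ := List.mem_map.mp hw
    exact hf x hx (by simpa using hxw)
  | some x =>
    have hx : x.1 = w := by simpa using List.find?_some hf
    simp only [Option.map_some, Option.getD_some, hx]
    by_cases hwe : w = e.2
    · rw [if_pos hwe, if_pos hwe]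
    · rw [if_neg hwe, if_neg hwe]

theorem mergeStep_keys {T : Type} (d : T) (J : T → T → T) (st : List (ℕ × T)) (e : ℕ × ℕ) :
    (mergeStep d J st e).map Prod.fst = st.map Prod.fst := by
  unfold mergeStep
  rw [List.map_map]
  apply List.map_congr_left
  intro x _
  simp only [Function.comp_apply]
  by_cases hx : x.1 = e.2
  · rw [if_pos hx]
  · rw [if_neg hx]

/-! ### Attachment lists -/

/-- The visited vertices. -/
def vl (r : ℕ) (L : List (ℕ × ℕ)) : List ℕ := L.map Prod.fst ++ [r]

theorem vl_cons (r : ℕ) (e : ℕ × ℕ) (L : List (ℕ × ℕ)) : vl r (e :: L) = e.1 :: vl r L := rfl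

theorem root_mem_vl (r : ℕ) (L : List (ℕ × ℕ)) : r ∈ vl r L := by simp [vl]

/-- Every pair attaches a new vertex to a visited one. -/
def Att (V : List ℕ) (E : List (ℕ × ℕ)) (r : ℕ) : List (ℕ × ℕ) → Prop
  | [] => True
  | e :: L => (e.1 ∈ V ∧ e.1 ∉ vl r L ∧ e.2 ∈ vl r L ∧ e.2 ≠ e.1 ∧
      ((e.2, e.1) ∈ E ∨ (e.1, e.2) ∈ E)) ∧ Att V E r L

theorem att_nodup {V : List ℕ} {E : List (ℕ × ℕ)} {r : ℕ} {L : List (ℕ × ℕ)}
    (h : Att V E r L) : (vl r L).Nodup := by
  induction L with
  | nil => simp [vl]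
  | cons e L ih => exact List.nodup_cons.mpr ⟨h.1.2.1, ih h.2⟩

theorem att_mem {V : List ℕ} {E : List (ℕ × ℕ)} {r : ℕ} (hr : r ∈ V) {L : List (ℕ × ℕ)}
    (h : Att V E r L) : ∀ x ∈ vl r L, x ∈ V := by
  induction L with
  | nil =>
    intro x hx
    have : x = r := by simpa [vl] using hx
    rw [this]; exact hr
  | cons e L ih =>
    intro x hx
    rw [vl_cons, List.mem_cons] at hx
    rcases hx with rfl | hx
    · exact h.1.1
    · exact ih h.2 x hx

theorem att_edge {V : List ℕ} {E : List (ℕ × ℕ)} {r : ℕ} {L : List (ℕ × ℕ)}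
    (h : Att V E r L) : ∀ e ∈ L, e.2 ≠ e.1 ∧ ((e.2, e.1) ∈ E ∨ (e.1, e.2) ∈ E) := by
  induction L with
  | nil => intro e he; simp at he
  | cons a L ih =>
    intro e he
    rcases List.mem_cons.mp he with rfl | he
    · exact h.1.2.2.2
    · exact ih h.2 e he

/-! ### The search -/

theorem growStep_inv {V : List ℕ} {E : List (ℕ × ℕ)} {r : ℕ} (s : List ℕ × List (ℕ × ℕ))
    (h1 : s.1 = vl r s.2) (h2 : Att V E r s.2) :
    (growStep (V, E) s).1 = vl r (growStep (V, E) s).2 ∧ Att V E r (growStep (V, E) s).2 := by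
  unfold growStep
  generalize hf : ((V, E).2 ++ (V, E).2.map fun e => (e.2, e.1)).find?
      (fun e => decide (e.1 ∈ s.1) && (decide (e.2 ∈ (V, E).1) && !decide (e.2 ∈ s.1))) = o
  cases o with
  | none => exact ⟨h1, h2⟩
  | some e =>
    have h3 := List.find?_some hf
    have h4 := List.mem_of_find?_eq_some hf
    simp only [Bool.and_eq_true, decide_eq_true_eq, Bool.not_eq_true', decide_eq_false_iff_not]
      at h3
    obtain ⟨h5, h6, h7⟩ := h3
    refine ⟨by rw [vl_cons, h1], ⟨h6, by rw [← h1]; exact h7, by rw [← h1]; exact h5, ?_, ?_⟩, h2⟩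
    · rintro h8
      have h8' : e.1 = e.2 := h8
      rw [h8'] at h5
      exact h7 h5
    · rcases List.mem_append.mp h4 with h9 | h9
      · exact Or.inl h9
      · obtain ⟨e', he', rfl⟩ := List.mem_map.mp h9
        exact Or.inr he'

theorem growStep_all {V : List ℕ} {E : List (ℕ × ℕ)} (s : List ℕ × List (ℕ × ℕ))
    (h : ∀ x ∈ V, x ∈ s.1) : ∀ x ∈ V, x ∈ (growStep (V, E) s).1 := by
  intro x hx
  unfold growStep
  split
  · exact h x hx
  · exact List.mem_cons_of_mem _ (h x hx)

theorem growStep_progress {V : List ℕ} {E : List (ℕ × ℕ)} (hG : (graphOf V E).Connected)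
    {r : ℕ} (hr : r ∈ V) (s : List ℕ × List (ℕ × ℕ)) (hrs : r ∈ s.1)
    (h : ¬ ∀ x ∈ V, x ∈ s.1) : (growStep (V, E) s).1.length = s.1.length + 1 := by
  unfold growStep
  generalize hf : ((V, E).2 ++ (V, E).2.map fun e => (e.2, e.1)).find?
      (fun e => decide (e.1 ∈ s.1) && (decide (e.2 ∈ (V, E).1) && !decide (e.2 ∈ s.1))) = o
  cases o with
  | some e => rfl
  | none =>
    exfalso
    rw [List.find?_eq_none] at hf
    apply h
    intro x hx
    have hadj : ∀ a b : {v : ℕ // v ∈ V}, (graphOf V E).Adj a b → a.1 ∈ s.1 → b.1 ∈ s.1 := by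
      intro a b hab ha
      by_contra hb
      rcases hab.2 with h3 | h3
      · apply hf (a.1, b.1) (List.mem_append_left _ h3)
        simp [ha, hb, b.2]
      · apply hf (a.1, b.1) (List.mem_append_right _ (List.mem_map.mpr ⟨(b.1, a.1), h3, rfl⟩))
        simp [ha, hb, b.2]
    have hreach := hG.preconnected ⟨r, hr⟩ ⟨x, hx⟩
    obtain ⟨w⟩ := hreach
    have : ∀ (a b : {v : ℕ // v ∈ V}), (graphOf V E).Walk a b → a.1 ∈ s.1 → b.1 ∈ s.1 := by
      intro a b w
      induction w with
      | nil => exact fun h => h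
      | cons hadj' _ ih => exact fun h => ih (hadj _ _ hadj' h)
    exact this _ _ w hrs

theorem foldl_grow {V : List ℕ} {E : List (ℕ × ℕ)} (hG : (graphOf V E).Connected)
    {r : ℕ} (hr : r ∈ V) (l : List ℕ) :
    ∀ s : List ℕ × List (ℕ × ℕ), s.1 = vl r s.2 → Att V E r s.2 →
      (l.foldl (fun s _ => growStep (V, E) s) s).1 = vl r (l.foldl (fun s _ => growStep (V, E) s) s).2 ∧
      Att V E r (l.foldl (fun s _ => growStep (V, E) s) s).2 ∧
      ((∀ x ∈ V, x ∈ s.1) → ∀ x ∈ V, x ∈ (l.foldl (fun s _ => growStep (V, E) s) s).1) ∧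
      ((∀ x ∈ V, x ∈ (l.foldl (fun s _ => growStep (V, E) s) s).1) ∨
        s.1.length + l.length ≤ (l.foldl (fun s _ => growStep (V, E) s) s).1.length) := by
  induction l with
  | nil =>
    intro s h1 h2
    exact ⟨h1, h2, fun h => h, Or.inr (by simp)⟩
  | cons a l ih =>
    intro s h1 h2
    obtain ⟨h3, h4⟩ := growStep_inv s h1 h2
    obtain ⟨h5, h6, h7, h8⟩ := ih (growStep (V, E) s) h3 h4
    rw [List.foldl_cons]
    refine ⟨h5, h6, fun h => h7 (growStep_all s h), ?_⟩
    by_cases hall : ∀ x ∈ V, x ∈ s.1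
    · exact Or.inl (h7 (growStep_all s hall))
    · rcases h8 with h8 | h8
      · exact Or.inl h8
      · right
        have h9 := growStep_progress hG hr s (by rw [h1]; exact root_mem_vl r s.2) hall
        rw [h9] at h8
        rw [List.length_cons]
        omega

theorem grow_spec {V : List ℕ} {E : List (ℕ × ℕ)} (hG : (graphOf V E).Connected) :
    rootOf V ∈ V ∧ Att V E (rootOf V) (grow (V, E)) ∧ ∀ x ∈ V, x ∈ vl (rootOf V) (grow (V, E)) := by
  have hr : rootOf V ∈ V := by
    obtain ⟨v⟩ := hG.nonempty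
    cases V with
    | nil => exact absurd v.2 (by simp)
    | cons a V => simp [rootOf]
  obtain ⟨h1, h2, -, h3⟩ := foldl_grow hG hr V ([rootOf V], []) rfl trivial
  refine ⟨hr, h2, ?_⟩
  have hgoal : ∀ x ∈ V, x ∈ (V.foldl (fun s _ => growStep (V, E) s) ([rootOf V], [])).1 := by
    rcases h3 with h3 | h3
    · exact h3
    · exfalso
      have h4 : (V.foldl (fun s _ => growStep (V, E) s) ([rootOf V], [])).1.length ≤ V.length := by
        rw [h1]
        exact (List.subperm_of_subset (att_nodup h2) (att_mem hr h2)).length_le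
      simp only [List.length_cons, List.length_nil] at h3
      omega
  intro x hx
  have := hgoal x hx
  rw [h1] at this
  exact this

/-! ### The attachment edges are all the edges -/

theorem adj_iff {V : List ℕ} {E : List (ℕ × ℕ)} (hG : (graphOf V E).IsTree) {r : ℕ}
    (hr : r ∈ V) {L : List (ℕ × ℕ)} (hL : Att V E r L) (hall : ∀ x ∈ V, x ∈ vl r L)
    (a b : {v : ℕ // v ∈ V}) :
    (graphOf V E).Adj a b ↔ ((a.1, b.1) ∈ L ∨ (b.1, a.1) ∈ L) := by
  have hL2 := att_edge hL
  let H : SimpleGraph {v : ℕ // v ∈ V} :=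
    { Adj := fun a b => (a.1, b.1) ∈ L ∨ (b.1, a.1) ∈ L
      symm := ⟨fun _ _ h => h.symm⟩
      loopless := ⟨fun a h => by
        rcases h with h | h
        · exact (hL2 _ h).1 rfl
        · exact (hL2 _ h).1 rfl⟩ }
  have hle : H ≤ graphOf V E := by
    intro a b hab
    rcases hab with h | h
    · refine ⟨fun h' => (hL2 _ h).1 (by rw [h']), ?_⟩
      rcases (hL2 _ h).2 with h3 | h3
      · exact Or.inr h3
      · exact Or.inl h3
    · refine ⟨fun h' => (hL2 _ h).1 (by rw [h']), ?_⟩
      rcases (hL2 _ h).2 with h3 | h3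
      · exact Or.inl h3
      · exact Or.inr h3
  have hreach : ∀ M : List (ℕ × ℕ), (∀ e ∈ M, e ∈ L) → Att V E r M →
      ∀ x (hx : x ∈ V), x ∈ vl r M → H.Reachable ⟨x, hx⟩ ⟨r, hr⟩ := by
    intro M
    induction M with
    | nil =>
      intro _ _ x hx hxr
      have : x = r := by simpa [vl] using hxr
      subst this
      exact SimpleGraph.Reachable.refl _
    | cons e M ih =>
      intro hM hA x hx hxr
      rw [vl_cons, List.mem_cons] at hxr
      have ih' := ih (fun e' he' => hM e' (List.mem_cons_of_mem _ he')) hA.2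
      rcases hxr with rfl | hxr
      · have hp := att_mem hr hA.2 e.2 hA.1.2.2.1
        have hadj : H.Adj ⟨e.1, hx⟩ ⟨e.2, hp⟩ := Or.inl (hM e List.mem_cons_self)
        exact hadj.reachable.trans (ih' e.2 hp hA.1.2.2.1)
      · exact ih' x hx hxr
  have hconn : H.Connected := by
    have hne : Nonempty {v : ℕ // v ∈ V} := ⟨⟨r, hr⟩⟩
    refine ⟨fun a b => ?_⟩
    exact (hreach L (fun _ h => h) hL a.1 a.2 (hall _ a.2)).trans
      (hreach L (fun _ h => h) hL b.1 b.2 (hall _ b.2)).symm
  have hmin := SimpleGraph.isTree_iff_minimal_connected.mp hG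
  have hge : graphOf V E ≤ H := hmin.2 hconn hle
  exact ⟨fun h => hge h, fun h => hle h⟩

/-! ### Bottom-up merging -/

/-- The invariant of the merging. -/
structure Inv (V : List ℕ) (r : ℕ) (L₀ L : List (ℕ × ℕ)) (F : ℕ → RT ℕ) : Prop where
  root : ∀ w ∈ vl r L, (F w).root = w
  nodup : ∀ w ∈ vl r L, (F w).verts.Nodup
  disj : ∀ w ∈ vl r L, ∀ w' ∈ vl r L, w ≠ w' → ∀ x ∈ (F w).verts, x ∉ (F w').verts
  mem : ∀ x, x ∈ V ↔ ∃ w ∈ vl r L, x ∈ (F w).verts
  adj : ∀ x y, ((x, y) ∈ L₀ ∨ (y, x) ∈ L₀) ↔
    ((∃ w ∈ vl r L, (F w).adj x y) ∨ ((x, y) ∈ L ∨ (y, x) ∈ L))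

theorem inv_step {V : List ℕ} {E : List (ℕ × ℕ)} {r : ℕ} {L₀ L : List (ℕ × ℕ)} {e : ℕ × ℕ}
    {F : ℕ → RT ℕ} (hA : Att V E r (e :: L)) (h : Inv V r L₀ (e :: L) F) :
    Inv V r L₀ L (Function.update F e.2 (RT.join (F e.2) (F e.1))) := by
  obtain ⟨⟨-, hv, hp, hne, -⟩, -⟩ := hA
  have hvm : e.1 ∈ vl r (e :: L) := List.mem_cons_self
  have hpm : e.2 ∈ vl r (e :: L) := List.mem_cons_of_mem _ hp
  have hup : ∀ w, w ≠ e.2 → Function.update F e.2 (RT.join (F e.2) (F e.1)) w = F w :=
    fun w hw => Function.update_of_ne hw _ _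
  have hself : Function.update F e.2 (RT.join (F e.2) (F e.1)) e.2 = RT.join (F e.2) (F e.1) :=
    Function.update_self _ _ _
  refine ⟨?_, ?_, ?_, ?_, ?_⟩
  · intro w hw
    by_cases hwp : w = e.2
    · subst hwp
      rw [hself]
      exact h.root e.2 hpm
    · rw [hup w hwp]
      exact h.root w (List.mem_cons_of_mem _ hw)
  · intro w hw
    by_cases hwp : w = e.2
    · subst hwp
      rw [hself]
      show ((F e.2).verts ++ (F e.1).verts).Nodup
      refine List.nodup_append.mpr ⟨h.nodup _ hpm, h.nodup _ hvm, ?_⟩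
      intro a ha b hb hab
      subst hab
      exact h.disj _ hpm _ hvm hne a ha hb
    · rw [hup w hwp]
      exact h.nodup w (List.mem_cons_of_mem _ hw)
  · intro w hw w' hw' hww x hx hx'
    have hwv : w ≠ e.1 := fun h' => hv (h' ▸ hw)
    have hwv' : w' ≠ e.1 := fun h' => hv (h' ▸ hw')
    have hwm : w ∈ vl r (e :: L) := List.mem_cons_of_mem _ hw
    have hwm' : w' ∈ vl r (e :: L) := List.mem_cons_of_mem _ hw'
    by_cases hwp : w = e.2
    · subst hwp
      have hwp' : w' ≠ e.2 := fun h' => hww h'.symm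
      rw [hself] at hx
      rw [hup w' hwp'] at hx'
      rcases List.mem_append.mp hx with hx | hx
      · exact h.disj _ hwm _ hwm' hww x hx hx'
      · exact h.disj _ hvm _ hwm' (Ne.symm hwv') x hx hx'
    · rw [hup w hwp] at hx
      by_cases hwp' : w' = e.2
      · subst hwp'
        rw [hself] at hx'
        rcases List.mem_append.mp hx' with hx' | hx'
        · exact h.disj _ hwm _ hwm' hww x hx hx'
        · exact h.disj _ hwm _ hvm hwv x hx hx'
      · rw [hup w' hwp'] at hx'
        exact h.disj _ hwm _ hwm' hww x hx hx'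
  · intro x
    rw [h.mem x]
    constructor
    · rintro ⟨w, hw, hx⟩
      rw [vl_cons, List.mem_cons] at hw
      rcases hw with rfl | hw
      · refine ⟨e.2, hp, ?_⟩
        rw [hself]
        exact List.mem_append_right _ hx
      · by_cases hwp : w = e.2
        · subst hwp
          refine ⟨e.2, hp, ?_⟩
          rw [hself]
          exact List.mem_append_left _ hx
        · refine ⟨w, hw, ?_⟩
          rw [hup w hwp]
          exact hx
    · rintro ⟨w, hw, hx⟩
      by_cases hwp : w = e.2
      · subst hwp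
        rw [hself] at hx
        rcases List.mem_append.mp hx with hx | hx
        · exact ⟨e.2, hpm, hx⟩
        · exact ⟨e.1, hvm, hx⟩
      · rw [hup w hwp] at hx
        exact ⟨w, List.mem_cons_of_mem _ hw, hx⟩
  · intro x y
    rw [h.adj x y]
    have hrp := h.root _ hpm
    have hrv := h.root _ hvm
    constructor
    · rintro (⟨w, hw, hx⟩ | hx)
      · left
        rw [vl_cons, List.mem_cons] at hw
        rcases hw with rfl | hw
        · refine ⟨e.2, hp, ?_⟩
          rw [hself]
          exact Or.inr (Or.inl hx)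
        · by_cases hwp : w = e.2
          · subst hwp
            refine ⟨e.2, hp, ?_⟩
            rw [hself]
            exact Or.inl hx
          · refine ⟨w, hw, ?_⟩
            rw [hup w hwp]
            exact hx
      · rcases hx with hx | hx
        · rcases List.mem_cons.mp hx with hx | hx
          · left
            refine ⟨e.2, hp, ?_⟩
            rw [hself]
            refine Or.inr (Or.inr (Or.inr ?_))
            rw [hrp, hrv, ← hx]
            exact ⟨rfl, rfl⟩
          · exact Or.inr (Or.inl hx)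
        · rcases List.mem_cons.mp hx with hx | hx
          · left
            refine ⟨e.2, hp, ?_⟩
            rw [hself]
            refine Or.inr (Or.inr (Or.inl ?_))
            rw [hrp, hrv, ← hx]
            exact ⟨rfl, rfl⟩
          · exact Or.inr (Or.inr hx)
    · rintro (⟨w, hw, hx⟩ | hx)
      · by_cases hwp : w = e.2
        · subst hwp
          rw [hself] at hx
          rcases hx with hx | hx | ⟨hx, hy⟩ | ⟨hx, hy⟩
          · exact Or.inl ⟨e.2, hpm, hx⟩
          · exact Or.inl ⟨e.1, hvm, hx⟩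
          · right; right
            rw [hrp] at hx
            rw [hrv] at hy
            rw [hx, hy]
            exact List.mem_cons_self
          · right; left
            rw [hrv] at hx
            rw [hrp] at hy
            rw [hx, hy]
            exact List.mem_cons_self
        · rw [hup w hwp] at hx
          exact Or.inl ⟨w, List.mem_cons_of_mem _ hw, hx⟩
      · rcases hx with hx | hx
        · exact Or.inr (Or.inl (List.mem_cons_of_mem _ hx))
        · exact Or.inr (Or.inr (List.mem_cons_of_mem _ hx))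

theorem inv_foldl {V : List ℕ} {E : List (ℕ × ℕ)} {r : ℕ} (hr : r ∈ V) {L₀ : List (ℕ × ℕ)}
    (L : List (ℕ × ℕ)) : ∀ (F : ℕ → RT ℕ) (st : List (ℕ × RT ℕ)), Att V E r L →
      Inv V r L₀ L F → st.map Prod.fst = V → (∀ w ∈ V, lookup (RT.leaf 0) st w = F w) →
      ∃ F' : ℕ → RT ℕ, Inv V r L₀ [] F' ∧
        ∀ w ∈ V, lookup (RT.leaf 0) (L.foldl (mergeStep (RT.leaf 0) RT.join) st) w = F' w := by
  induction L with
  | nil =>
    intro F st _ h _ hst
    exact ⟨F, h, hst⟩
  | cons e L ih =>
    intro F st hA h hkeys hst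
    rw [List.foldl_cons]
    refine ih (Function.update F e.2 (RT.join (F e.2) (F e.1))) _ hA.2 (inv_step hA h) ?_ ?_
    · rw [mergeStep_keys]
      exact hkeys
    · intro w hw
      rw [lookup_mergeStep _ _ _ _ _ (by rw [hkeys]; exact hw)]
      have hv : e.1 ∈ V := hA.1.1
      have hp : e.2 ∈ V := att_mem hr hA.2 e.2 hA.1.2.2.1
      by_cases hwp : w = e.2
      · rw [if_pos hwp, hwp, Function.update_self, hst _ hp, hst _ hv]
      · rw [if_neg hwp, Function.update_of_ne hwp, hst _ hw]

/-! ### Lifting to the subtype -/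

theorem exists_lift {V : List ℕ} (T : RT ℕ) (hT : ∀ x ∈ T.verts, x ∈ V) :
    ∃ t : RT {v : ℕ // v ∈ V}, t.map Subtype.val = T := by
  induction T with
  | leaf a => exact ⟨RT.leaf ⟨a, hT a (by simp [RT.verts])⟩, rfl⟩
  | join t s iht ihs =>
    obtain ⟨t', ht'⟩ := iht (fun x hx => hT x (List.mem_append_left _ hx))
    obtain ⟨s', hs'⟩ := ihs (fun x hx => hT x (List.mem_append_right _ hx))
    exact ⟨RT.join t' s', by rw [RT.map, ht', hs']⟩

theorem map_verts {α β : Type} (g : α → β) (t : RT α) : (t.map g).verts = t.verts.map g := by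
  induction t with
  | leaf a => rfl
  | join t s iht ihs => rw [RT.map, RT.verts, RT.verts, iht, ihs, List.map_append]

theorem map_root {α β : Type} (g : α → β) (t : RT α) : (t.map g).root = g t.root := by
  induction t with
  | leaf a => rfl
  | join t s iht _ => exact iht

theorem map_adj {α β : Type} (g : α → β) (hg : Function.Injective g) (t : RT α) (x y : α) :
    (t.map g).adj (g x) (g y) ↔ t.adj x y := by
  induction t with
  | leaf a => exact Iff.rfl
  | join t s iht ihs =>
    rw [RT.map, RT.adj, RT.adj, iht, ihs, map_root, map_root, hg.eq_iff, hg.eq_iff, hg.eq_iff,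
      hg.eq_iff]

end OrderAux

open OrderAux

theorem exists_rt (V : List ℕ) (E : List (ℕ × ℕ)) (h : (graphOf V E).IsTree) :
    ∃ t : RT {v : ℕ // v ∈ V}, t.Represents (graphOf V E) ∧ t.map Subtype.val = rtOf (V, E) := by
  obtain ⟨hr, hL, hall⟩ := grow_spec h.connected
  have hinv : Inv V (rootOf V) (grow (V, E)) (grow (V, E)) RT.leaf := by
    refine ⟨fun w _ => rfl, fun w _ => by simp [RT.verts], ?_, ?_, ?_⟩
    · intro w _ w' _ hww x hx hx'
      simp only [RT.verts, List.mem_singleton] at hx hx'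
      exact hww (hx.symm.trans hx')
    · intro x
      constructor
      · intro hx
        exact ⟨x, hall x hx, by simp [RT.verts]⟩
      · rintro ⟨w, hw, hx⟩
        simp only [RT.verts, List.mem_singleton] at hx
        rw [hx]
        exact att_mem hr hL w hw
    · intro x y
      constructor
      · exact fun h => Or.inr h
      · rintro (⟨w, _, hw⟩ | h)
        · exact absurd hw (by simp [RT.adj])
        · exact h
  obtain ⟨F', hF', hst⟩ := inv_foldl hr (grow (V, E)) RT.leaf (V.map fun v => (v, RT.leaf v)) hL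
    hinv (by rw [List.map_map]; exact List.map_id V) (by
      intro w hw
      unfold lookup
      rw [List.find?_map]
      have h5 : ((fun e : ℕ × RT ℕ => decide (e.1 = w)) ∘ fun v : ℕ => (v, RT.leaf v))
          = fun v => decide (v = w) := rfl
      rw [h5]
      cases hf : V.find? (fun v => decide (v = w)) with
      | none =>
        exfalso
        rw [List.find?_eq_none] at hf
        exact hf w hw (by simp)
      | some x =>
        have hx : x = w := by simpa using List.find?_some hf
        rw [hx]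
        rfl)
  have hrt : rtOf (V, E) = F' (rootOf V) := hst _ hr
  have hvl : vl (rootOf V) [] = [rootOf V] := rfl
  have hmem : ∀ x, x ∈ V ↔ x ∈ (F' (rootOf V)).verts := by
    intro x
    rw [hF'.mem x, hvl]
    simp
  obtain ⟨t, ht⟩ := exists_lift (V := V) (F' (rootOf V)) (fun x hx => (hmem x).mpr hx)
  refine ⟨t, ⟨?_, ?_, ?_⟩, by rw [ht, hrt]⟩
  · have h6 := hF'.nodup (rootOf V) (root_mem_vl _ _)
    rw [← ht, map_verts] at h6
    exact List.Nodup.of_map _ h6
  · intro v
    have h7 := (hmem v.1).mp v.2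
    rw [← ht, map_verts] at h7
    obtain ⟨v', hv', hvv⟩ := List.mem_map.mp h7
    rwa [Subtype.ext hvv] at hv'
  · intro x y
    rw [adj_iff h hr hL hall x y, hF'.adj x.1 y.1, hvl]
    simp only [List.mem_singleton, exists_eq_left, List.not_mem_nil, or_self, or_false]
    rw [← ht, map_adj _ Subtype.val_injective]

theorem runTree_hom {T T' : Type} (leaf : ℕ → T) (J : T → T → T) (leaf' : ℕ → T')
    (J' : T' → T' → T') (φ : T → T') (h1 : ∀ v, φ (leaf v) = leaf' v)
    (h2 : ∀ a b, φ (J a b) = J' (φ a) (φ b)) (p : List ℕ × List (ℕ × ℕ)) :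
    φ (runTree leaf J p) = runTree leaf' J' p := by
  unfold runTree
  rw [← lookup_map φ, foldl_map φ (leaf 0) J J' h2, h1, List.map_map]
  have h3 : ((fun x : ℕ × T => (x.1, φ x.2)) ∘ fun v => (v, leaf v)) = fun v => (v, leaf' v) := by
    funext v
    simp [h1]
  rw [h3]

end Pool.Agent.Lib.FracIrr
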