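import Pool.Agent.Lib.MP_d53d42_lc.Algo
import Pool.Agent.Lib.PolyTime.Sum
import Pool.Agent.Lib.PolyTime.Arith

/-!
# MP_d53d42_lc: the algorithm runs in polynomial time
-/

set_option autoImplicit false

namespace Pool.Agent.Lib.FracIrr

open Pool.Agent.PolyTime

/-! ### Extended natural numbers -/

section wt
variable {α : Type} [Enc α]

theorem pt_top : PTime (fun _ : α => (⊤ : WithTop ℕ)) := PTime.const _

theorem pt_toOpt {f : α → WithTop ℕ} (hf : PTime f) : PTime (fun x => (f x : Option ℕ)) :=
  hf.of_enc_eq (fun x => x) (fun _ => rfl) (fun _ => rfl)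

theorem pt_ofOpt {f : α → Option ℕ} (hf : PTime f) : PTime (fun x => (f x : WithTop ℕ)) :=
  hf.of_enc_eq (fun x => x) (fun _ => rfl) (fun _ => rfl)

/-- Addition of options. -/
def oadd (a b : Option ℕ) : Option ℕ :=
  match a with
  | none => none
  | some x => match b with
    | none => none
    | some y => some (x + y)

/-- Minimum of options (`none` is the largest). -/
def omin (a b : Option ℕ) : Option ℕ :=
  match a with
  | none => b
  | some x => match b with
    | none => some x
    | some y => if x ≤ y then some x else some y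

theorem oadd_eq (a b : WithTop ℕ) : (oadd a b : WithTop ℕ) = a + b := by
  induction a using WithTop.recTopCoe with
  | top => rw [top_add]; rfl
  | coe x =>
    induction b using WithTop.recTopCoe with
    | top => rw [add_top]; rfl
    | coe y => rfl

theorem omin_eq (a b : WithTop ℕ) : (omin a b : WithTop ℕ) = a ⊓ b := by
  induction a using WithTop.recTopCoe with
  | top => rw [top_inf_eq]; rfl
  | coe x =>
    induction b using WithTop.recTopCoe with
    | top => rw [inf_top_eq]; rfl
    | coe y =>
      change (if x ≤ y then ((x : ℕ) : WithTop ℕ) else ((y : ℕ) : WithTop ℕ)) = _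
      split_ifs with h
      · exact (inf_eq_left.mpr (WithTop.coe_le_coe.mpr h)).symm
      · exact (inf_eq_right.mpr (WithTop.coe_le_coe.mpr (not_le.mp h).le)).symm

theorem pt_oadd : PTime (fun p : Option ℕ × Option ℕ => oadd p.1 p.2) := by
  have h1 : PTime (fun q : ((Option ℕ × Option ℕ) × ℕ) × ℕ => some (q.1.2 + q.2)) :=
    PTime.some (PTime.add (PTime.snd' PTime.fst) PTime.snd)
  have h2 : PTime (fun q : (Option ℕ × Option ℕ) × ℕ => match q.1.2 with
      | none => none
      | some y => some (q.2 + y)) :=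
    (PTime.option_cases (f := fun q : (Option ℕ × Option ℕ) × ℕ => q.1.2)
      (h := fun r => some (r.1.2 + r.2)) (PTime.snd' PTime.fst) (PTime.const none) h1).of_eq
      fun q => by
        rcases q with ⟨⟨a, b⟩, c⟩
        cases b <;> rfl
  refine (PTime.option_cases (f := fun p : Option ℕ × Option ℕ => p.1) PTime.fst
    (PTime.const none) h2).of_eq fun p => ?_
  obtain ⟨a, b⟩ := p
  cases a <;> rfl

theorem pt_omin : PTime (fun p : Option ℕ × Option ℕ => omin p.1 p.2) := by
  have h1 : PTime (fun q : ((Option ℕ × Option ℕ) × ℕ) × ℕ =>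
      if q.1.2 ≤ q.2 then some q.1.2 else some q.2) :=
    PTime.iteP (PTime.le (PTime.snd' PTime.fst) PTime.snd) (PTime.some (PTime.snd' PTime.fst))
      (PTime.some PTime.snd)
  have h2 : PTime (fun q : (Option ℕ × Option ℕ) × ℕ => match q.1.2 with
      | none => some q.2
      | some y => if q.2 ≤ y then some q.2 else some y) :=
    (PTime.option_cases (f := fun q : (Option ℕ × Option ℕ) × ℕ => q.1.2)
      (h := fun r => if r.1.2 ≤ r.2 then some r.1.2 else some r.2)
      (PTime.snd' PTime.fst) (PTime.some PTime.snd) h1).of_eq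
      fun q => by
        rcases q with ⟨⟨a, b⟩, c⟩
        cases b <;> rfl
  refine (PTime.option_cases (f := fun p : Option ℕ × Option ℕ => p.1) PTime.fst
    PTime.snd h2).of_eq fun p => ?_
  obtain ⟨a, b⟩ := p
  cases a <;> rfl

theorem pt_add {f g : α → WithTop ℕ} (hf : PTime f) (hg : PTime g) :
    PTime (fun x => f x + g x) := by
  have h := pt_oadd.comp ((pt_toOpt hf).pair (pt_toOpt hg))
  exact (pt_ofOpt h).of_eq fun x => oadd_eq _ _

theorem pt_inf {f g : α → WithTop ℕ} (hf : PTime f) (hg : PTime g) :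
    PTime (fun x => f x ⊓ g x) := by
  have h := pt_omin.comp ((pt_toOpt hf).pair (pt_toOpt hg))
  exact (pt_ofOpt h).of_eq fun x => omin_eq _ _

theorem pt_finf {ι : Type} (s : Finset ι) {f : ι → α → WithTop ℕ} (hf : ∀ i, PTime (f i)) :
    PTime (fun x => s.inf fun i => f i x) := by
  classical
  induction s using Finset.induction_on with
  | empty => exact pt_top.of_eq fun x => by simp
  | insert a s ha ih => exact (pt_inf (hf a) ih).of_eq fun x => by rw [Finset.inf_insert]

theorem pt_untop {f : α → WithTop ℕ} (hf : PTime f) : PTime (fun x => WithTop.untopD 0 (f x)) := by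
  refine ((pt_toOpt hf).getD (PTime.const 0)).of_eq fun x => ?_
  rcases h : f x with _ | y
  · rfl
  · rfl

end wt

section tables

variable {A : Type} [Fintype A] {k : ℕ}

theorem pt_costJoin (j : Fin k → Fin k → Fin k) :
    PTime (fun p : (Fin k → WithTop ℕ) × (Fin k → WithTop ℕ) => costJoin j p.1 p.2) := by
  refine PTime.mkFn
    (f := fun m (p : (Fin k → WithTop ℕ) × (Fin k → WithTop ℕ)) => costJoin j p.1 p.2 m)
    fun m => ?_
  exact pt_finf _ fun q => pt_add (PTime.appFn PTime.fst q.1) (PTime.appFn PTime.snd q.2)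

theorem pt_outOf (F : Fin k → Bool) : PTime (fun c : Fin k → WithTop ℕ => outOf F c) :=
  pt_untop (pt_finf _ fun m => PTime.appFn PTime.id m)

end tables

/-! ### The search -/

/-- Inputs. -/
abbrev Inp : Type := List ℕ × List (ℕ × ℕ)

theorem pt_growStep : PTime (fun q : Inp × Inp => growStep q.1 q.2) := by
  have hE : PTime (fun q : Inp × Inp => q.1.2) := PTime.snd' PTime.fst
  have hsw : PTime₂ (fun (_ : Inp × Inp) (e : ℕ × ℕ) => (e.2, e.1)) :=
    (PTime.snd' PTime.snd).pair (PTime.fst' PTime.snd)
  have hl : PTime (fun q : Inp × Inp => q.1.2 ++ q.1.2.map fun e => (e.2, e.1)) :=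
    hE.append (PTime.map hE hsw)
  have hp : PTime₂ (fun (q : Inp × Inp) (e : ℕ × ℕ) =>
      decide (e.1 ∈ q.2.1) && (decide (e.2 ∈ q.1.1) && !decide (e.2 ∈ q.2.1))) := by
    have h1 : PTime (fun r : (Inp × Inp) × (ℕ × ℕ) => r.2.1) := PTime.fst' PTime.snd
    have h2 : PTime (fun r : (Inp × Inp) × (ℕ × ℕ) => r.2.2) := PTime.snd' PTime.snd
    have h3 : PTime (fun r : (Inp × Inp) × (ℕ × ℕ) => r.1.2.1) :=
      PTime.fst' (PTime.snd' PTime.fst)
    have h4 : PTime (fun r : (Inp × Inp) × (ℕ × ℕ) => r.1.1.1) :=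
      PTime.fst' (PTime.fst' PTime.fst)
    exact (PTime.mem h1 h3).and ((PTime.mem h2 h4).and (PTime.mem h2 h3).not)
  have hf := PTime.find? hl hp
  have hs : PTime (fun r : (Inp × Inp) × (ℕ × ℕ) =>
      ((r.2.2 :: r.1.2.1, (r.2.2, r.2.1) :: r.1.2.2) : Inp)) := by
    have h1 : PTime (fun r : (Inp × Inp) × (ℕ × ℕ) => r.2.1) := PTime.fst' PTime.snd
    have h2 : PTime (fun r : (Inp × Inp) × (ℕ × ℕ) => r.2.2) := PTime.snd' PTime.snd
    have h3 : PTime (fun r : (Inp × Inp) × (ℕ × ℕ) => r.1.2.1) :=
      PTime.fst' (PTime.snd' PTime.fst)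
    have h5 : PTime (fun r : (Inp × Inp) × (ℕ × ℕ) => r.1.2.2) :=
      PTime.snd' (PTime.snd' PTime.fst)
    exact (h2.cons h3).pair ((h2.pair h1).cons h5)
  refine (PTime.option_cases hf PTime.snd hs).of_eq fun q => ?_
  unfold growStep
  generalize List.find? _ _ = o
  cases o <;> rfl

theorem pt_rootOf {α : Type} [Enc α] {f : α → List ℕ} (hf : PTime f) :
    PTime (fun x => rootOf (f x)) := by
  refine (hf.head?.getD (PTime.const 0)).of_eq fun x => ?_
  unfold rootOf
  cases f x <;> rfl

/-- The bound on the entries of the state of the search. -/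
theorem grow_inv (p : Inp) (N : ℕ) (hV : ∀ v ∈ p.1, size (enc v) ≤ N) :
    ∀ (l : List ℕ) (s : Inp), (∀ v ∈ s.1, size (enc v) ≤ N) →
      (∀ e ∈ s.2, size (enc e) ≤ 2 * N + 1) →
      (∀ v ∈ (l.foldl (fun s _ => growStep p s) s).1, size (enc v) ≤ N) ∧
      (∀ e ∈ (l.foldl (fun s _ => growStep p s) s).2, size (enc e) ≤ 2 * N + 1) ∧
      (l.foldl (fun s _ => growStep p s) s).1.length ≤ s.1.length + l.length ∧
      (l.foldl (fun s _ => growStep p s) s).2.length ≤ s.2.length + l.length := by
  intro l
  induction l with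
  | nil => intro s h1 h2; exact ⟨h1, h2, by simp, by simp⟩
  | cons a l ih =>
    intro s h1 h2
    rw [List.foldl_cons]
    have key : (∀ v ∈ (growStep p s).1, size (enc v) ≤ N) ∧
        (∀ e ∈ (growStep p s).2, size (enc e) ≤ 2 * N + 1) ∧
        (growStep p s).1.length ≤ s.1.length + 1 ∧
        (growStep p s).2.length ≤ s.2.length + 1 := by
      unfold growStep
      split
      · exact ⟨h1, h2, by omega, by omega⟩
      · rename_i e he
        have h3 := List.find?_some he
        simp only [Bool.and_eq_true, decide_eq_true_eq, Bool.not_eq_true',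
          decide_eq_false_iff_not] at h3
        have h4 := h1 _ h3.1
        have h5 := hV _ h3.2.1
        refine ⟨?_, ?_, by simp, by simp⟩
        · intro v hv
          rcases List.mem_cons.mp hv with rfl | hv
          · exact h5
          · exact h1 v hv
        · intro v hv
          rcases List.mem_cons.mp hv with rfl | hv
          · rw [size_pair]
            omega
          · exact h2 v hv
    obtain ⟨k1, k2, k3, k4⟩ := key
    obtain ⟨i1, i2, i3, i4⟩ := ih _ k1 k2
    rw [List.length_cons]
    exact ⟨i1, i2, by omega, by omega⟩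

theorem pt_grow : PTime (fun p : Inp => grow p) := by
  have hV : PTime (fun p : Inp => p.1) := PTime.fst
  have hg : PTime (fun p : Inp => (([rootOf p.1], []) : Inp)) :=
    ((pt_rootOf hV).cons (PTime.const [])).pair (PTime.const [])
  have hh : PTime (fun p : Inp × (Inp × ℕ) => growStep p.1 p.2.1) :=
    pt_growStep.comp (PTime.fst.pair (PTime.fst' PTime.snd))
  refine PTime.snd' (PTime.foldl (h := fun p s _ => growStep p s) hV hg hh
    (B := fun n => ((n + 1) * (n + 1) + 1) + ((n + 1) * (2 * n + 1 + 1) + 1) + 1) ?_ ?_)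
  · have h1 : PBd (fun n => n + 1) := PBd.id.add (PBd.const 1)
    have h2 : PBd (fun n => 2 * n + 1 + 1) :=
      (((PBd.const 2).mul PBd.id).add (PBd.const 1)).add (PBd.const 1)
    exact (((h1.mul h1).add (PBd.const 1)).add ((h1.mul h2).add (PBd.const 1))).add (PBd.const 1)
  · intro p l₁ l₂ h
    set N := size (enc p) with hN
    have hN1 : size (enc p.1) + 1 ≤ N := by
      have := size_pair p.1 p.2
      have h3 : size (enc p) = size (enc p.1) + size (enc p.2) + 1 := this
      omega
    have hVN : ∀ v ∈ p.1, size (enc v) ≤ N := by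
      intro v hv
      have := size_le_of_mem hv
      omega
    have hroot : size (enc (rootOf p.1)) ≤ N := by
      unfold rootOf
      rcases hp : p.1 with _ | ⟨v, l⟩
      · have h0 : size (enc (0 : ℕ)) = 1 := rfl
        change size (enc (0 : ℕ)) ≤ N
        omega
      · exact hVN v (by rw [hp]; simp)
    obtain ⟨i1, i2, i3, i4⟩ := grow_inv p N hVN l₁ ([rootOf p.1], []) (by
      intro v hv
      rw [List.mem_singleton] at hv
      rw [hv]
      exact hroot) (by simp)
    have hlen : l₁.length ≤ N := by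
      have h1 := length_le_size p.1
      rw [h, List.length_append] at h1
      rw [h] at hN1
      omega
    simp only [List.length_singleton, List.length_nil] at i3 i4
    have j1 := size_list_le _ _ i1
    have j2 := size_list_le _ _ i2
    have j3 : size (enc (l₁.foldl (fun s _ => growStep p s) ([rootOf p.1], []))) =
      size (enc (l₁.foldl (fun s _ => growStep p s) ([rootOf p.1], [])).1) +
      size (enc (l₁.foldl (fun s _ => growStep p s) ([rootOf p.1], [])).2) + 1 := size_pair _ _
    have m1 := Nat.mul_le_mul_right (N + 1) (i3.trans (show 1 + l₁.length ≤ N + 1 by omega))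
    have m2 := Nat.mul_le_mul_right (2 * N + 1 + 1)
      (i4.trans (show 0 + l₁.length ≤ N + 1 by omega))
    change size (enc (l₁.foldl (fun s _ => growStep p s) ([rootOf p.1], []))) ≤ _
    rw [j3]
    omega

/-! ### The evaluation -/

section eval

variable {T : Type} [Enc T]

theorem pt_lookup (d : T) : PTime (fun q : List (ℕ × T) × ℕ => lookup d q.1 q.2) := by
  have h1 : PTime₂ (fun (q : List (ℕ × T) × ℕ) (e : ℕ × T) => decide (e.1 = q.2)) :=
    PTime.eq (PTime.fst' PTime.snd) (PTime.snd' PTime.fst)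
  have h2 : PTime (fun q : List (ℕ × T) × ℕ => q.1.find? fun e => decide (e.1 = q.2)) :=
    PTime.find? PTime.fst h1
  have h3 : PTime₂ (fun (_ : List (ℕ × T) × ℕ) (e : ℕ × T) => e.2) := PTime.snd' PTime.snd
  exact (PTime.omap h2 h3).getD (PTime.const d)

theorem pt_mergeStep (d : T) {J : T → T → T} (hJ : PTime (fun p : T × T => J p.1 p.2)) :
    PTime (fun q : List (ℕ × T) × (ℕ × ℕ) => mergeStep d J q.1 q.2) := by
  have h0 : PTime (fun q : List (ℕ × T) × (ℕ × ℕ) => lookup d q.1 q.2.1) :=
    (pt_lookup d).comp (PTime.fst.pair (PTime.fst' PTime.snd))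
  have h1 : PTime₂ (fun (r : (List (ℕ × T) × (ℕ × ℕ)) × T) (x : ℕ × T) =>
      if x.1 = r.1.2.2 then (x.1, J x.2 r.2) else x) := by
    refine PTime.iteP (PTime.eq (PTime.fst' PTime.snd)
      (PTime.snd' (PTime.snd' (PTime.fst' PTime.fst)))) ?_ PTime.snd
    exact (PTime.fst' PTime.snd).pair (hJ.comp ((PTime.snd' PTime.snd).pair (PTime.snd' PTime.fst)))
  have h2 : PTime (fun r : (List (ℕ × T) × (ℕ × ℕ)) × T => r.1.1.map fun x =>
      if x.1 = r.1.2.2 then (x.1, J x.2 r.2) else x) :=
    PTime.map (PTime.fst' PTime.fst) h1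
  exact h2.comp (PTime.id.pair h0)

omit [Enc T] in
theorem lookup_mem (d : T) (st : List (ℕ × T)) (v : ℕ) :
    lookup d st v = d ∨ ∃ e ∈ st, lookup d st v = e.2 := by
  unfold lookup
  rcases h : st.find? (fun e => decide (e.1 = v)) with _ | e
  · left; rw [h]; rfl
  · right; exact ⟨e, List.mem_of_find?_eq_some h, by rw [h]; rfl⟩

omit [Enc T] in
/-- The shape of the stores. -/
theorem merge_inv (d : T) (J : T → T → T) (Q : ℕ → T → Prop) (K : ℕ) (hd : Q K d)
    (hmono : ∀ t x, Q t x → Q (t + 1) x) (hJ : ∀ t x y, Q t x → Q t y → Q (t + 1) (J x y)) :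
    ∀ (l : List (ℕ × ℕ)) (t : ℕ) (st : List (ℕ × T)), K ≤ t → (∀ e ∈ st, Q t e.2) →
      (l.foldl (mergeStep d J) st).map Prod.fst = st.map Prod.fst ∧
      ∀ e ∈ l.foldl (mergeStep d J) st, Q (t + l.length) e.2 := by
  have hK : ∀ t, K ≤ t → Q t d := fun t ht => Nat.le_induction hd (fun n _ h => hmono n d h) t ht
  intro l
  induction l with
  | nil => intro t st _ h; exact ⟨rfl, h⟩
  | cons a l ih =>
    intro t st ht h
    rw [List.foldl_cons]
    have h1 : ∀ e ∈ mergeStep d J st a, Q (t + 1) e.2 := by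
      intro e he
      unfold mergeStep at he
      obtain ⟨x, hx, rfl⟩ := List.mem_map.mp he
      split_ifs
      · refine hJ t _ _ (h x hx) ?_
        rcases lookup_mem d st a.1 with h2 | ⟨y, hy, h2⟩
        · rw [h2]; exact hK t ht
        · rw [h2]; exact h y hy
      · exact hmono _ _ (h x hx)
    have h2 : (mergeStep d J st a).map Prod.fst = st.map Prod.fst := by
      unfold mergeStep
      rw [List.map_map]
      apply List.map_congr_left
      intro x _
      simp only [Function.comp]
      split_ifs <;> rfl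
    obtain ⟨i1, i2⟩ := ih (t + 1) _ (by omega) h1
    refine ⟨i1.trans h2, fun e he => ?_⟩
    have h3 := i2 e he
    have h4 : t + (a :: l).length = t + 1 + l.length := by rw [List.length_cons]; omega
    rw [h4]
    exact h3

end eval

section tables2

variable {A : Type} [Fintype A] {k : ℕ}

/-- All finite entries are below `2 ^ t`. -/
def Bd (t : ℕ) (c : Fin k → WithTop ℕ) : Prop := ∀ m (n : ℕ), c m = (n : WithTop ℕ) → n < 2 ^ t

theorem Bd.mono {t : ℕ} {c : Fin k → WithTop ℕ} (h : Bd t c) : Bd (t + 1) c := fun m n hn =>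
  (h m n hn).trans_le (Nat.pow_le_pow_right (by norm_num) (by omega))

theorem finf_coe {ι : Type} (s : Finset ι) (f : ι → WithTop ℕ) (n : ℕ)
    (h : s.inf f = (n : WithTop ℕ)) : ∃ i ∈ s, f i = (n : WithTop ℕ) := by
  classical
  induction s using Finset.induction_on with
  | empty => simp at h
  | insert a s ha ih =>
    rw [Finset.inf_insert] at h
    rcases le_total (f a) (s.inf f) with h1 | h1
    · rw [inf_eq_left.mpr h1] at h
      exact ⟨a, by simp, h⟩
    · rw [inf_eq_right.mpr h1] at h
      obtain ⟨i, hi, h2⟩ := ih h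
      exact ⟨i, by simp [hi], h2⟩

theorem Bd.join (j : Fin k → Fin k → Fin k) {t : ℕ} {c₁ c₂ : Fin k → WithTop ℕ} (h1 : Bd t c₁)
    (h2 : Bd t c₂) : Bd (t + 1) (costJoin j c₁ c₂) := by
  intro m n hn
  obtain ⟨p, _, hp⟩ := finf_coe _ _ _ hn
  obtain ⟨a, ha⟩ : ∃ a : ℕ, c₁ p.1 = (a : WithTop ℕ) := by
    rcases h : c₁ p.1 with _ | a
    · have h' : c₁ p.1 = ⊤ := h
      rw [h', top_add] at hp
      exact absurd hp WithTop.top_ne_coe
    · exact ⟨a, rfl⟩
  obtain ⟨b, hb⟩ : ∃ b : ℕ, c₂ p.2 = (b : WithTop ℕ) := by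
    rcases h : c₂ p.2 with _ | b
    · have h' : c₂ p.2 = ⊤ := h
      rw [h', add_top] at hp
      exact absurd hp WithTop.top_ne_coe
    · exact ⟨b, rfl⟩
  rw [ha, hb] at hp
  have h3 : a + b = n := by exact_mod_cast hp
  have h4 := h1 _ _ ha
  have h5 := h2 _ _ hb
  rw [pow_succ]
  omega

theorem exists_Bd (c : Fin k → WithTop ℕ) : ∃ K, Bd K c := by
  refine ⟨∑ m, WithTop.untopD 0 (c m), fun m n hn => ?_⟩
  have h1 : n ≤ ∑ m, WithTop.untopD 0 (c m) := by
    have h2 := Finset.single_le_sum (f := fun m => WithTop.untopD 0 (c m))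
      (fun i _ => Nat.zero_le _) (Finset.mem_univ m)
    simp only [hn] at h2
    exact h2
  exact h1.trans_lt Nat.lt_two_pow_self

theorem size_table {t : ℕ} {c : Fin k → WithTop ℕ} (h : Bd t c) :
    size (enc c) ≤ k * (4 * t + 4) + 1 := by
  have h1 : ∀ x ∈ List.ofFn c, size (enc x) ≤ 4 * t + 3 := by
    intro x hx
    obtain ⟨m, rfl⟩ := (List.mem_ofFn' _ _).mp hx
    rcases hm : c m with _ | n
    · have h2 : size (enc (none : WithTop ℕ)) = 1 := rfl
      change size (enc (none : WithTop ℕ)) ≤ _
      omega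
    · have h3 := size_nat_le_of_lt (h m n hm)
      have h2 : size (enc (some n : WithTop ℕ)) = size (enc n) + 1 + 1 := by
        change size (D.cons (enc n) D.nil) = _
        rw [size_cons, size_nil]
      change size (enc (some n : WithTop ℕ)) ≤ _
      omega
  have h2 := size_list_le _ _ h1
  rw [List.length_ofFn] at h2
  exact h2

theorem pt_runTree (d : Fin k → WithTop ℕ) (j : Fin k → Fin k → Fin k) :
    PTime (fun p : Inp => runTree (fun _ => d) (costJoin j) p) := by
  obtain ⟨K, hK⟩ := exists_Bd d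
  obtain ⟨G, hG, hGm, hGs⟩ := pt_grow.size_le
  have hinit : PTime (fun p : Inp => p.1.map fun v => (v, d)) :=
    PTime.map PTime.fst (PTime.snd.pair (PTime.const d))
  have hstep : PTime (fun q : Inp × (List (ℕ × (Fin k → WithTop ℕ)) × (ℕ × ℕ)) =>
      mergeStep d (costJoin j) q.2.1 q.2.2) :=
    (pt_mergeStep d (pt_costJoin j)).comp PTime.snd
  have hfold : PTime (fun p : Inp => (grow p).foldl (mergeStep d (costJoin j))
      (p.1.map fun v => (v, d))) := by
    refine PTime.foldl (h := fun (_ : Inp) st e => mergeStep d (costJoin j) st e) pt_grow hinit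
      hstep (B := fun n => n * (n + (k * (4 * (K + G n) + 4) + 1) + 1 + 1) + 1) ?_ ?_
    · have h1 : PBd (fun n => 4 * (K + G n) + 4) :=
        ((PBd.const 4).mul ((PBd.const K).add hG)).add (PBd.const 4)
      have h2 : PBd (fun n => k * (4 * (K + G n) + 4) + 1) :=
        ((PBd.const k).mul h1).add (PBd.const 1)
      exact (PBd.id.mul (((PBd.id.add h2).add (PBd.const 1)).add (PBd.const 1))).add (PBd.const 1)
    · intro p l₁ l₂ h
      set N := size (enc p) with hN
      have hN1 : size (enc p.1) + 1 ≤ N := by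
        have h3 : size (enc p) = size (enc p.1) + size (enc p.2) + 1 := size_pair p.1 p.2
        have := size_pos (enc p.2)
        omega
      obtain ⟨i1, i2⟩ := merge_inv d (costJoin j) Bd K hK (fun _ _ h => h.mono)
        (fun _ _ _ h1 h2 => Bd.join j h1 h2) l₁ K (p.1.map fun v => (v, d)) le_rfl (by
          intro e he
          obtain ⟨v, _, rfl⟩ := List.mem_map.mp he
          exact hK)
      have hl : l₁.length ≤ G N := by
        have h1 := length_le_size (grow p)
        have h2 : size (enc (grow p)) ≤ G N := hGs p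
        rw [h, List.length_append] at h1
        rw [h] at h2
        omega
      have h3 : ∀ e ∈ l₁.foldl (mergeStep d (costJoin j)) (p.1.map fun v => (v, d)),
          size (enc e) ≤ N + (k * (4 * (K + G N) + 4) + 1) + 1 := by
        intro e he
        have h4 : e.1 ∈ (l₁.foldl (mergeStep d (costJoin j)) (p.1.map fun v => (v, d))).map
            Prod.fst := List.mem_map.mpr ⟨e, he, rfl⟩
        rw [i1, List.map_map] at h4
        obtain ⟨v, hv, hve⟩ := List.mem_map.mp h4
        have hve' : v = e.1 := hve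
        have h5 : size (enc e.1) + 1 ≤ size (enc p.1) := by
          rw [← hve']
          exact size_le_of_mem hv
        have h6 := size_table (i2 e he)
        have h7 : size (enc e) = size (enc e.1) + size (enc e.2) + 1 := size_pair e.1 e.2
        have h8 : k * (4 * (K + l₁.length) + 4) ≤ k * (4 * (K + G N) + 4) :=
          Nat.mul_le_mul_left _ (by omega)
        omega
      have h4 := size_list_le _ _ h3
      have h5 : (l₁.foldl (mergeStep d (costJoin j)) (p.1.map fun v => (v, d))).length =
          p.1.length := by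
        rw [← List.length_map (f := Prod.fst), i1, List.length_map, List.length_map]
      rw [h5] at h4
      have h6 : p.1.length ≤ N := by
        have := length_le_size p.1
        omega
      have h7 := Nat.mul_le_mul_right (N + (k * (4 * (K + G N) + 4) + 1) + 1 + 1) h6
      change size (enc (l₁.foldl (mergeStep d (costJoin j)) (p.1.map fun v => (v, d)))) ≤ _
      omega
  exact (pt_lookup d).comp (hfold.pair (pt_rootOf PTime.fst))

/-- The algorithm runs in polynomial time. -/
theorem algo_ptime {A : Type} [Fintype A] {k : ℕ} (i : A → Fin k) (j : Fin k → Fin k → Fin k)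
    (F : Fin k → Bool) (wt : A → ℕ) : PTime (algo i j F wt) :=
  (pt_outOf F).comp (pt_runTree (costLeaf i wt) j)

end tables2

/-! ### Comparison of a natural number with a rational number -/

theorem rat_decide_ptime : PTime (fun p : ℕ × ℚ => decide ((p.1 : ℚ) ≤ p.2)) := by
  have h0 : PTime (fun p : ℕ × ((Bool × ℕ) × ℕ) =>
      !p.2.1.1 && decide (p.1 * p.2.2 ≤ p.2.1.2)) :=
    (PTime.fst' (PTime.fst' PTime.snd)).not.and
      (PTime.le (PTime.mul PTime.fst (PTime.snd' PTime.snd)) (PTime.snd' (PTime.fst' PTime.snd)))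
  refine h0.of_enc_eq (fun p : ℕ × ℚ => (p.1, ((decide (p.2.num < 0), p.2.num.natAbs), p.2.den)))
    (fun _ => rfl) fun p => ?_
  congr 1
  obtain ⟨a, q⟩ := p
  simp only
  rw [Bool.eq_iff_iff]
  simp only [decide_eq_true_eq, Bool.and_eq_true, Bool.not_eq_true', decide_eq_false_iff_not,
    not_lt]
  have hden : (0 : ℚ) < q.den := by exact_mod_cast q.den_pos
  have h1 : ((a : ℚ) ≤ q) ↔ ((a : ℤ) * q.den ≤ q.num) := by
    rw [← Rat.num_div_den q, le_div_iff₀ hden]
    simp only [Rat.num_div_den]
    exact_mod_cast Iff.rfl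
  rw [h1]
  constructor
  · intro h
    have h2 : 0 ≤ q.num := le_trans (by positivity) h
    refine ⟨h2, ?_⟩
    zify
    rw [abs_of_nonneg h2]
    exact h
  · rintro ⟨h2, h⟩
    zify at h
    rwa [abs_of_nonneg h2] at h

end Pool.Agent.Lib.FracIrr
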