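import Pool.Agent.Lib.MP_d53d42_lc.Defs

/-!
# MP_d53d42_lc: recognisability of the type condition on trees
-/

set_option autoImplicit false

namespace Pool.Agent.Lib.FracIrr

namespace RecogAux

/-! ## Trees -/

section trees

variable {α β M : Type}

theorem root_mem (t : RT α) : t.root ∈ t.verts := by
  induction t with
  | leaf a => simp [RT.root, RT.verts]
  | join t s iht _ =>
    simp only [RT.root, RT.verts, List.mem_append]
    exact Or.inl iht

theorem adj_mem (t : RT α) {x y : α} (h : t.adj x y) : x ∈ t.verts ∧ y ∈ t.verts := by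
  induction t with
  | leaf a => exact h.elim
  | join t s iht ihs =>
    simp only [RT.verts, List.mem_append]
    rcases h with h | h | ⟨h1, h2⟩ | ⟨h1, h2⟩
    · exact ⟨Or.inl (iht h).1, Or.inl (iht h).2⟩
    · exact ⟨Or.inr (ihs h).1, Or.inr (ihs h).2⟩
    · subst h1 h2
      exact ⟨Or.inl (root_mem t), Or.inr (root_mem s)⟩
    · subst h1 h2
      exact ⟨Or.inr (root_mem s), Or.inl (root_mem t)⟩

theorem eval_map (g : α → β) (i : β → M) (j : M → M → M) (t : RT α) :
    (t.map g).eval i j = t.eval (fun v => i (g v)) j := by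
  induction t with
  | leaf a => rfl
  | join t s iht ihs => simp only [RT.map, RT.eval, iht, ihs]

theorem eval_congr {i i' : α → M} (j : M → M → M) (t : RT α)
    (h : ∀ v ∈ t.verts, i v = i' v) : t.eval i j = t.eval i' j := by
  induction t with
  | leaf a => exact h a (by simp [RT.verts])
  | join t s iht ihs =>
    simp only [RT.eval]
    rw [iht fun v hv => h v (by simp [RT.verts, hv]),
      ihs fun v hv => h v (by simp [RT.verts, hv])]

end trees

/-- Recognisability with an arbitrary finite algebra. -/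
def RecogT {A : Type} (P : ∀ (V : Type) [Fintype V], SimpleGraph V → (V → A) → Prop) : Prop :=
  ∃ (M : Type) (_ : Finite M) (i : A → M) (j : M → M → M) (F : M → Prop),
    ∀ (V : Type) [Fintype V] (G : SimpleGraph V) (t : RT V), t.Represents G → ∀ σ : V → A,
      (P V G σ ↔ F (t.eval (fun v => i (σ v)) j))

theorem recog_of_recogT {A : Type}
    {P : ∀ (V : Type) [Fintype V], SimpleGraph V → (V → A) → Prop} (h : RecogT P) :
    Recog P := by
  classical
  obtain ⟨M, hM, i, j, F, h⟩ := h
  obtain ⟨k, ⟨e⟩⟩ := Finite.exists_equiv_fin M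
  refine ⟨k, fun a => e (i a), fun x y => e (j (e.symm x) (e.symm y)), fun x => F (e.symm x), ?_⟩
  intro V _ G t ht σ
  rw [h V G t ht σ, eval_map]
  have key : ∀ t : RT V, t.eval (fun v => e (i (σ v))) (fun x y => e (j (e.symm x) (e.symm y))) =
      e (t.eval (fun v => i (σ v)) j) := by
    intro t
    induction t with
    | leaf a => rfl
    | join t s iht ihs => simp only [RT.eval, iht, ihs, Equiv.symm_apply_apply]
  simp only [key, Equiv.symm_apply_apply]

theorem RecogT.congr {A : Type}
    {P Q : ∀ (V : Type) [Fintype V], SimpleGraph V → (V → A) → Prop} (h : RecogT P)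
    (hPQ : ∀ (V : Type) [Fintype V] (G : SimpleGraph V) (σ : V → A), Q V G σ ↔ P V G σ) :
    RecogT Q := by
  obtain ⟨M, hM, i, j, F, h⟩ := h
  exact ⟨M, hM, i, j, F, fun V _ G t ht σ => (hPQ V G σ).trans (h V G t ht σ)⟩

theorem RecogT.not {A : Type}
    {P : ∀ (V : Type) [Fintype V], SimpleGraph V → (V → A) → Prop} (h : RecogT P) :
    RecogT (fun V _ G σ => ¬ P V G σ) := by
  obtain ⟨M, hM, i, j, F, h⟩ := h
  exact ⟨M, hM, i, j, fun m => ¬ F m, fun V _ G t ht σ => not_congr (h V G t ht σ)⟩

theorem RecogT.and {A : Type}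
    {P Q : ∀ (V : Type) [Fintype V], SimpleGraph V → (V → A) → Prop} (h : RecogT P)
    (h' : RecogT Q) : RecogT (fun V _ G σ => P V G σ ∧ Q V G σ) := by
  obtain ⟨M, hM, i, j, F, h⟩ := h
  obtain ⟨M', hM', i', j', F', h'⟩ := h'
  refine ⟨M × M', inferInstance, fun a => (i a, i' a), fun x y => (j x.1 y.1, j' x.2 y.2),
    fun m => F m.1 ∧ F' m.2, fun V _ G t ht σ => ?_⟩
  have key : ∀ t : RT V, t.eval (fun v => (i (σ v), i' (σ v)))
      (fun x y => (j x.1 y.1, j' x.2 y.2)) =
      (t.eval (fun v => i (σ v)) j, t.eval (fun v => i' (σ v)) j') := by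
    intro t
    induction t with
    | leaf a => rfl
    | join t s iht ihs => simp only [RT.eval, iht, ihs]
  rw [key]
  exact and_congr (h V G t ht σ) (h' V G t ht σ)

theorem RecogT.relabel {A A' : Type}
    {P : ∀ (V : Type) [Fintype V], SimpleGraph V → (V → A) → Prop} (h : RecogT P)
    (g : A' → A) : RecogT (fun V _ G (σ : V → A') => P V G (fun v => g (σ v))) := by
  obtain ⟨M, hM, i, j, F, h⟩ := h
  exact ⟨M, hM, fun a => i (g a), j, F, fun V _ G t ht σ => h V G t ht fun v => g (σ v)⟩

theorem RecogT.ex {A C : Type}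
    {P : ∀ (V : Type) [Fintype V], SimpleGraph V → (V → A × C) → Prop} (h : RecogT P) :
    RecogT (fun V _ G (σ : V → A) => ∃ ρ : V → C, P V G (fun v => (σ v, ρ v))) := by
  classical
  obtain ⟨M, hM, i, j, F, h⟩ := h
  refine ⟨Set M, inferInstance, fun a => Set.range fun c => i (a, c),
    fun X Y => Set.image2 j X Y, fun X => ∃ m ∈ X, F m, fun V _ G t ht σ => ?_⟩
  have key : ∀ t : RT V, t.verts.Nodup → ∀ m,
      (m ∈ t.eval (fun v => Set.range fun c => i (σ v, c)) (fun X Y => Set.image2 j X Y) ↔
        ∃ ρ : V → C, t.eval (fun v => i (σ v, ρ v)) j = m) := by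
    intro t
    induction t with
    | leaf a =>
      intro _ m
      simp only [RT.eval, Set.mem_range]
      constructor
      · rintro ⟨c, hc⟩
        exact ⟨fun _ => c, hc⟩
      · rintro ⟨ρ, hρ⟩
        exact ⟨ρ a, hρ⟩
    | join t s iht ihs =>
      intro hnd m
      simp only [RT.verts] at hnd
      obtain ⟨h1, h2, h3⟩ := List.nodup_append.mp hnd
      simp only [RT.eval, Set.mem_image2]
      constructor
      · rintro ⟨x, hx, y, hy, rfl⟩
        obtain ⟨ρ₁, rfl⟩ := (iht h1 x).mp hx
        obtain ⟨ρ₂, rfl⟩ := (ihs h2 y).mp hy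
        refine ⟨fun v => if v ∈ t.verts then ρ₁ v else ρ₂ v, ?_⟩
        congr 1
        · apply eval_congr
          intro v hv
          simp only [if_pos hv]
        · apply eval_congr
          intro v hv
          have hv' : v ∉ t.verts := fun hv' => h3 v hv' v hv rfl
          simp only [if_neg hv']
      · rintro ⟨ρ, rfl⟩
        exact ⟨_, (iht h1 _).mpr ⟨ρ, rfl⟩, _, (ihs h2 _).mpr ⟨ρ, rfl⟩, rfl⟩
  constructor
  · rintro ⟨ρ, hρ⟩
    exact ⟨_, (key t ht.1 _).mpr ⟨ρ, rfl⟩, (h V G t ht _).mp hρ⟩
  · rintro ⟨m, hm, hF⟩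
    obtain ⟨ρ, rfl⟩ := (key t ht.1 _).mp hm
    exact ⟨ρ, (h V G t ht _).mpr hF⟩

/-! ## Local conditions -/

section local_

variable {V N : Type} [AddCommMonoid N]

open Classical in
/-- Sum over the neighbours in a tree. -/
noncomputable def nb (f : V → N) : RT V → V → N
  | .leaf _, _ => 0
  | .join t s, u => nb f t u + nb f s u + ((if u = t.root then f s.root else 0) +
      (if u = s.root then f t.root else 0))

theorem nb_of_not_mem (f : V → N) (t : RT V) {u : V} (h : u ∉ t.verts) : nb f t u = 0 := by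
  induction t with
  | leaf a => rfl
  | join t s iht ihs =>
    simp only [RT.verts, List.mem_append, not_or] at h
    have h1 : u ≠ t.root := fun h1 => h.1 (h1 ▸ root_mem t)
    have h2 : u ≠ s.root := fun h2 => h.2 (h2 ▸ root_mem s)
    simp only [nb, iht h.1, ihs h.2, if_neg h1, if_neg h2, add_zero]

open Classical in
theorem sum_adj [Fintype V] (f : V → N) (t : RT V) (hnd : t.verts.Nodup) (u : V) :
    ∑ w with t.adj u w, f w = nb f t u := by
  induction t with
  | leaf a =>
    refine Finset.sum_eq_zero fun w hw => ?_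
    exact (Finset.mem_filter.mp hw).2.elim
  | join t s iht ihs =>
    simp only [RT.verts] at hnd
    obtain ⟨h1, h2, h3⟩ := List.nodup_append.mp hnd
    have hdis : ∀ v, v ∈ t.verts → v ∈ s.verts → False := fun v hv hv' => h3 v hv v hv' rfl
    have hne : t.root ≠ s.root := fun h => hdis _ (root_mem t) (h ▸ root_mem s)
    rw [Finset.sum_filter]
    have key : ∀ w, (if (t.join s).adj u w then f w else 0) =
        (if t.adj u w then f w else 0) + (if s.adj u w then f w else 0) +
          ((if u = t.root then (if w = s.root then f w else 0) else 0) +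
            (if u = s.root then (if w = t.root then f w else 0) else 0)) := by
      intro w
      have hj : (t.join s).adj u w ↔ t.adj u w ∨ s.adj u w ∨ (u = t.root ∧ w = s.root) ∨
        (u = s.root ∧ w = t.root) := Iff.rfl
      by_cases c1 : t.adj u w
      · have m1 := adj_mem t c1
        have c2 : ¬ s.adj u w := fun c2 => hdis u m1.1 (adj_mem s c2).1
        have c3 : w ≠ s.root := fun c3 => hdis w m1.2 (c3 ▸ root_mem s)
        have c4 : u ≠ s.root := fun c4 => hdis u m1.1 (c4 ▸ root_mem s)
        simp [hj, c1, c2, c3, c4]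
      · by_cases c2 : s.adj u w
        · have m1 := adj_mem s c2
          have c3 : w ≠ t.root := fun c3 => hdis w (c3 ▸ root_mem t) m1.2
          have c4 : u ≠ t.root := fun c4 => hdis u (c4 ▸ root_mem t) m1.1
          simp [hj, c1, c2, c3, c4]
        · by_cases c3 : u = t.root
          · subst c3
            simp only [hj, c1, c2, if_false, false_or, true_and, hne, false_and, or_false,
              if_true, zero_add, add_zero]
          · simp only [hj, c1, c2, c3, false_or, false_and, if_false, zero_add]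
            by_cases c4 : u = s.root
            · simp [c4]
            · simp [c4]
    rw [Finset.sum_congr rfl fun w _ => key w, Finset.sum_add_distrib, Finset.sum_add_distrib,
      Finset.sum_add_distrib, ← Finset.sum_filter, ← Finset.sum_filter, iht h1, ihs h2]
    simp only [nb]
    congr 2
    · split_ifs
      · simp
      · simp
    · split_ifs
      · simp
      · simp

open Classical in
/-- The algebra that checks a local condition. -/
noncomputable def locJ {A : Type} (kap : A → N) (C : A → N → Prop) :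
    Option (A × N) → Option (A × N) → Option (A × N)
  | some x, some y => if C y.1 (y.2 + kap x.1) then some (x.1, x.2 + kap y.1) else none
  | _, _ => none

open Classical in
theorem loc_eval {A : Type} (kap : A → N) (C : A → N → Prop) (σ : V → A) (t : RT V)
    (hnd : t.verts.Nodup) :
    t.eval (fun v => some (σ v, (0 : N))) (locJ kap C) =
      if (∀ u ∈ t.verts, u ≠ t.root → C (σ u) (nb (fun v => kap (σ v)) t u)) then
        some (σ t.root, nb (fun v => kap (σ v)) t t.root) else none := by
  induction t with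
  | leaf a =>
    rw [if_pos]
    · rfl
    · intro u hu hne
      simp only [RT.verts, List.mem_singleton] at hu
      exact absurd hu hne
  | join t s iht ihs =>
    simp only [RT.verts] at hnd
    obtain ⟨h1, h2, h3⟩ := List.nodup_append.mp hnd
    have hdis : ∀ v, v ∈ t.verts → v ∈ s.verts → False := fun v hv hv' => h3 v hv v hv' rfl
    have hne : t.root ≠ s.root := fun h => hdis _ (root_mem t) (h ▸ root_mem s)
    have ht0 : t.root ∉ s.verts := fun h => hdis _ (root_mem t) h
    have hs0 : s.root ∉ t.verts := fun h => hdis _ h (root_mem s)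
    have e1 : ∀ u ∈ t.verts, u ≠ t.root → nb (fun v => kap (σ v)) (t.join s) u =
        nb (fun v => kap (σ v)) t u := by
      intro u hu hu'
      have c1 : u ∉ s.verts := fun h => hdis u hu h
      have c2 : u ≠ s.root := fun h => c1 (h ▸ root_mem s)
      simp only [nb, nb_of_not_mem _ s c1, if_neg hu', if_neg c2, add_zero]
    have e2 : ∀ u ∈ s.verts, u ≠ s.root → nb (fun v => kap (σ v)) (t.join s) u =
        nb (fun v => kap (σ v)) s u := by
      intro u hu hu'
      have c1 : u ∉ t.verts := fun h => hdis u h hu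
      have c2 : u ≠ t.root := fun h => c1 (h ▸ root_mem t)
      simp only [nb, nb_of_not_mem _ t c1, if_neg hu', if_neg c2, add_zero, zero_add]
    have e3 : nb (fun v => kap (σ v)) (t.join s) s.root =
        nb (fun v => kap (σ v)) s s.root + kap (σ t.root) := by
      simp only [nb, nb_of_not_mem _ t hs0, if_neg hne.symm, zero_add, if_true]
    have e4 : nb (fun v => kap (σ v)) (t.join s) t.root =
        nb (fun v => kap (σ v)) t t.root + kap (σ s.root) := by
      simp only [nb, nb_of_not_mem _ s ht0, if_neg hne, add_zero, if_true]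
    have hcond : (∀ u ∈ (t.join s).verts, u ≠ (t.join s).root →
        C (σ u) (nb (fun v => kap (σ v)) (t.join s) u)) ↔
        (∀ u ∈ t.verts, u ≠ t.root → C (σ u) (nb (fun v => kap (σ v)) t u)) ∧
        (∀ u ∈ s.verts, u ≠ s.root → C (σ u) (nb (fun v => kap (σ v)) s u)) ∧
        C (σ s.root) (nb (fun v => kap (σ v)) s s.root + kap (σ t.root)) := by
      simp only [RT.verts, RT.root, List.mem_append]
      constructor
      · intro h
        refine ⟨fun u hu hu' => ?_, fun u hu hu' => ?_, ?_⟩
        · rw [← e1 u hu hu']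
          exact h u (Or.inl hu) hu'
        · rw [← e2 u hu hu']
          exact h u (Or.inr hu) fun h' => ht0 (h' ▸ hu)
        · rw [← e3]
          exact h s.root (Or.inr (root_mem s)) hne.symm
      · rintro ⟨g1, g2, g3⟩ u hu hu'
        rcases hu with hu | hu
        · rw [e1 u hu hu']
          exact g1 u hu hu'
        · by_cases c : u = s.root
          · rw [c, e3]
            exact g3
          · rw [e2 u hu c]
            exact g2 u hu c
    simp only [RT.eval]
    rw [iht h1, ihs h2]
    simp only [hcond]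
    by_cases g1 : ∀ u ∈ t.verts, u ≠ t.root → C (σ u) (nb (fun v => kap (σ v)) t u)
    · by_cases g2 : ∀ u ∈ s.verts, u ≠ s.root → C (σ u) (nb (fun v => kap (σ v)) s u)
      · rw [if_pos g1, if_pos g2]
        simp only [locJ, RT.root, e4]
        by_cases g3 : C (σ s.root) (nb (fun v => kap (σ v)) s s.root + kap (σ t.root))
        · rw [if_pos g3, if_pos ⟨g1, g2, g3⟩]
        · rw [if_neg g3, if_neg fun h => g3 h.2.2]
      · rw [if_pos g1, if_neg g2, if_neg fun h => g2 h.2.1]
        rfl
    · have g4 : ¬ ((∀ u ∈ t.verts, u ≠ t.root → C (σ u) (nb (fun v => kap (σ v)) t u)) ∧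
          (∀ u ∈ s.verts, u ≠ s.root → C (σ u) (nb (fun v => kap (σ v)) s u)) ∧
          C (σ s.root) (nb (fun v => kap (σ v)) s s.root + kap (σ t.root))) :=
        fun h => g1 h.1
      rw [if_neg g1, if_neg g4]
      simp only [locJ]

open Classical in
theorem recogT_local {A : Type} [Finite A] [Finite N] (kap : A → N) (C : A → N → Prop) :
    RecogT (fun V _ G (σ : V → A) => ∀ u, C (σ u) (∑ w with G.Adj u w, kap (σ w))) := by
  refine ⟨Option (A × N), inferInstance, fun a => some (a, 0), locJ kap C,
    fun m => ∃ x, m = some x ∧ C x.1 x.2, fun V _ G t ht σ => ?_⟩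
  rw [loc_eval kap C σ t ht.1]
  have hnb : ∀ u, ∑ w with G.Adj u w, kap (σ w) = nb (fun v => kap (σ v)) t u := by
    intro u
    rw [← sum_adj (fun v => kap (σ v)) t ht.1 u]
    refine Finset.sum_congr ?_ fun _ _ => rfl
    ext w
    simp only [Finset.mem_filter, Finset.mem_univ, true_and]
    exact ht.2.2 u w
  simp only [hnb]
  constructor
  · intro h
    refine ⟨(σ t.root, nb (fun v => kap (σ v)) t t.root), ?_, h _⟩
    rw [if_pos fun u _ _ => h u]
  · rintro ⟨x, hx, hC⟩ u
    split_ifs at hx with h
    · by_cases hu : u = t.root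
      · rw [Option.some.injEq] at hx
        subst hx
        rw [hu]
        exact hC
      · exact h u (ht.2.1 u) hu

theorem recogT_global {A : Type} [Finite N] (kap : A → N) (C : N → Prop) :
    RecogT (fun V _ _ (σ : V → A) => C (∑ v, kap (σ v))) := by
  classical
  refine ⟨N, inferInstance, kap, fun x y => x + y, C, fun V _ G t ht σ => ?_⟩
  have key : ∀ t : RT V, t.eval (fun v => kap (σ v)) (fun x y => x + y) =
      (t.verts.map fun v => kap (σ v)).sum := by
    intro t
    induction t with
    | leaf a => simp [RT.eval, RT.verts]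
    | join t s iht ihs => simp only [RT.eval, RT.verts, iht, ihs, List.map_append, List.sum_append]
  rw [key, ← List.sum_toFinset _ ht.1]
  have h1 : t.verts.toFinset = Finset.univ := by
    ext v
    simp [ht.2.1 v]
  rw [h1]

end local_

/-! ## Capped natural numbers -/

/-- The natural numbers `0, 1, 2` with capped addition. -/
structure Cap where
  val : Fin 3
deriving DecidableEq

instance : Fintype Cap := Fintype.ofEquiv (Fin 3) ⟨Cap.mk, Cap.val, fun _ => rfl, fun _ => rfl⟩

/-- The capped value. -/
def cap (n : ℕ) : Cap := ⟨⟨min n 2, by omega⟩⟩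

instance : Zero Cap := ⟨⟨0⟩⟩

instance : Add Cap := ⟨fun a b => ⟨⟨min (a.val.1 + b.val.1) 2, by omega⟩⟩⟩

theorem Cap.ext_val {a b : Cap} (h : a.val.1 = b.val.1) : a = b := by
  cases a
  cases b
  congr
  exact Fin.ext h

theorem Cap.add_val (a b : Cap) : (a + b).val.1 = min (a.val.1 + b.val.1) 2 := rfl

theorem Cap.zero_val : (0 : Cap).val.1 = 0 := rfl

instance : AddCommMonoid Cap where
  add_assoc a b c := Cap.ext_val (by simp only [Cap.add_val]; omega)
  zero_add a := Cap.ext_val (by
    have := a.val.2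
    simp only [Cap.add_val, Cap.zero_val]; omega)
  add_zero a := Cap.ext_val (by
    have := a.val.2
    simp only [Cap.add_val, Cap.zero_val]; omega)
  add_comm a b := Cap.ext_val (by simp only [Cap.add_val]; omega)
  nsmul := nsmulRec

/-- The capped value, as a homomorphism. -/
def capHom : ℕ →+ Cap where
  toFun := cap
  map_zero' := rfl
  map_add' a b := Cap.ext_val (by simp only [Cap.add_val, cap]; omega)

theorem capHom_val (n : ℕ) : (capHom n).val.1 = min n 2 := rfl

/-! ## Local conditions on the number of marked vertices -/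

open Classical in
theorem cnt_eq {V : Type} [Fintype V] (G : SimpleGraph V) (X : V → Bool) (u : V) :
    cnt G X u = (if X u = true then 1 else 0) +
      ∑ w with G.Adj u w, (if X w = true then 1 else 0) := by
  unfold cnt
  rw [Finset.card_filter, Finset.sum_filter]
  have h1 : (if X u = true then 1 else 0) =
      ∑ w : V, if w = u then (if X u = true then 1 else 0) else 0 := by simp
  rw [h1, ← Finset.sum_add_distrib]
  refine Finset.sum_congr rfl fun w _ => ?_
  by_cases c1 : w = u
  · subst c1
    simp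
  · by_cases c2 : G.Adj u w
    · simp [c1, c2]
    · simp [c1, c2]

theorem recogT_loc {A : Type} [Finite A] {n : ℕ} (m : A → Fin n → Bool)
    (D : A → (Fin n → ℕ) → Prop) (hD : ∀ a x, D a x ↔ D a fun b => min (x b) 2) :
    RecogT (fun V _ G (σ : V → A) => ∀ u, D (σ u) fun b => cnt G (fun v => m (σ v) b) u) := by
  classical
  have h := recogT_local (A := A) (N := Fin n → Cap)
    (fun a b => capHom (if m a b = true then 1 else 0))
    (fun a x => D a fun b => (capHom (if m a b = true then 1 else 0) + x b).val.1)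
  refine h.congr fun V _ G σ => forall_congr' fun u => ?_
  rw [hD]
  have h1 : (fun b => min (cnt G (fun v => m (σ v) b) u) 2) = fun b =>
      (capHom (if m (σ u) b = true then 1 else 0) + (∑ w with G.Adj u w,
        fun b => capHom (if m (σ w) b = true then 1 else 0)) b).val.1 := by
    funext b
    rw [← capHom_val, cnt_eq, map_add, map_sum, Finset.sum_apply]
  rw [h1]

theorem recogT_glob {A : Type} (m : A → Bool) (D : ℕ → Prop) (hD : ∀ x, D x ↔ D (min x 2)) :
    RecogT (fun V _ _ (σ : V → A) => D (weight fun v => m (σ v))) := by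
  have h := recogT_global (A := A) (N := Cap)
    (fun a => capHom (if m a = true then 1 else 0)) (fun x => D x.val.1)
  refine h.congr fun V _ G σ => ?_
  rw [hD, ← map_sum, capHom_val]
  unfold weight
  rw [Finset.card_filter]

theorem one_le_cnt {V : Type} [Fintype V] (G : SimpleGraph V) (X : V → Bool) (v : V) :
    1 ≤ cnt G X v ↔ ∃ u, (u = v ∨ G.Adj v u) ∧ X u = true := by
  classical
  unfold cnt
  rw [Nat.one_le_iff_ne_zero, Finset.card_ne_zero]
  constructor
  · rintro ⟨u, hu⟩
    exact ⟨u, by simpa using hu⟩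
  · rintro ⟨u, hu⟩
    exact ⟨u, by simpa using hu⟩

theorem weight_eq_one {V : Type} [Fintype V] (Y : V → Bool) :
    weight Y = 1 ↔ ∃ v, Y = fun w => @decide (w = v) (Classical.dec _) := by
  classical
  unfold weight
  rw [Finset.card_eq_one]
  constructor
  · rintro ⟨v, hv⟩
    refine ⟨v, ?_⟩
    funext w
    have h1 : w ∈ Finset.univ.filter (fun x => Y x = true) ↔ w ∈ ({v} : Finset V) := by rw [hv]
    simp only [Finset.mem_filter, Finset.mem_univ, true_and, Finset.mem_singleton] at h1
    rw [Bool.eq_iff_iff, h1]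
    simp
  · rintro ⟨v, rfl⟩
    refine ⟨v, ?_⟩
    ext w
    simp

theorem one_le_weight {V : Type} [Fintype V] (Y : V → Bool) :
    1 ≤ weight Y ↔ ∃ v, Y v = true := by
  classical
  unfold weight
  rw [Nat.one_le_iff_ne_zero, Finset.card_ne_zero]
  constructor
  · rintro ⟨u, hu⟩
    exact ⟨u, by simpa using hu⟩
  · rintro ⟨u, hu⟩
    exact ⟨u, by simpa using hu⟩

/-! ## The type condition -/

/-- The local condition in `QI`. -/
def qi (S : Bool) (st : Fin 3) (X : Bool) (c : ℕ) : Prop :=
  (X = true → S = true) ∧ (st = 0 → c = 1) ∧ (st = 1 → c ≤ 1) ∧ (st = 2 → 1 ≤ c)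

theorem qi_min (S : Bool) (st : Fin 3) (X : Bool) (c : ℕ) :
    qi S st X c ↔ qi S st X (min c 2) := by
  unfold qi
  have h1 : c = 1 ↔ min c 2 = 1 := by omega
  have h2 : c ≤ 1 ↔ min c 2 ≤ 1 := by omega
  have h3 : 1 ≤ c ↔ 1 ≤ min c 2 := by omega
  rw [← h1, ← h2, ← h3]

theorem QI_iff {V : Type} [Fintype V] (G : SimpleGraph V) (S : V → Bool) (st : V → Fin 3)
    (X : V → Bool) : QI G S st X ↔ ∀ u, qi (S u) (st u) (X u) (cnt G X u) := Iff.rfl

theorem recogT_QI : RecogT (A := Bool × Fin 3 × Bool) (fun _ _ G σ =>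
    QI G (fun v => (σ v).1) (fun v => (σ v).2.1) (fun v => (σ v).2.2)) := by
  have h := recogT_loc (A := Bool × Fin 3 × Bool) (n := 1) (fun a _ => a.2.2)
    (fun a x => qi a.1 a.2.1 a.2.2 (x 0)) (fun a x => qi_min _ _ _ _)
  exact h.congr fun V _ G σ => Iff.rfl

theorem recogT_one : RecogT (A := Bool × Fin 3) (fun _ _ G σ =>
    ∀ v, (σ v).1 = true → ∃ u, (u = v ∨ G.Adj v u) ∧ (σ u).2 = 0) := by
  have h := recogT_loc (A := Bool × Fin 3) (n := 1) (fun a _ => decide (a.2 = 0))
    (fun a x => a.1 = true → 1 ≤ x 0) (fun a x => by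
      have : 1 ≤ x 0 ↔ 1 ≤ min (x 0) 2 := by omega
      simp only [← this])
  refine h.congr fun V _ G σ => forall_congr' fun v => imp_congr_right fun _ => ?_
  rw [one_le_cnt]
  simp

/-- For every vertex `v` with a certain label there is `X` with `QI` and a local condition
at `v`. -/
theorem recogT_each (R : Bool × Fin 3 → Prop) (D : Bool → ℕ → Prop)
    (hD : ∀ b x, D b x ↔ D b (min x 2)) :
    RecogT (A := Bool × Fin 3) (fun _ _ G σ => ∀ v, R (σ v) →
      ∃ X, QI G (fun v => (σ v).1) (fun v => (σ v).2) X ∧ D (X v) (cnt G X v)) := by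
  classical
  have h1 := recogT_loc (A := ((Bool × Fin 3) × Bool) × Bool) (n := 1) (fun a _ => a.2)
    (fun a x => qi a.1.1.1 a.1.1.2 a.2 (x 0) ∧ (a.1.2 = true → D a.2 (x 0)))
    (fun a x => and_congr (qi_min _ _ _ _) (imp_congr_right fun _ => hD _ _))
  have h2 := recogT_loc (A := (Bool × Fin 3) × Bool) (n := 0) (fun _ b => b.elim0)
    (fun a _ => a.2 = true → R a.1) (fun a x => Iff.rfl)
  have h3 := recogT_glob (A := (Bool × Fin 3) × Bool) (fun a => a.2) (fun x => x = 1)
    (fun x => by omega)
  have h4 := ((h1.ex.not.and h2).and h3).ex.not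
  refine h4.congr fun V _ G σ => ?_
  constructor
  · rintro h ⟨Y, ⟨hY1, hY2⟩, hY3⟩
    obtain ⟨v, rfl⟩ := (weight_eq_one Y).mp hY3
    have hR : R (σ v) := hY2 v (by simp)
    obtain ⟨X, hX1, hX2⟩ := h v hR
    apply hY1
    refine ⟨X, fun u => ⟨hX1 u, fun hu => ?_⟩⟩
    have hu' : u = v := by simpa using hu
    subst hu'
    exact hX2
  · intro h v hv
    by_contra hcon
    apply h
    refine ⟨fun w => decide (w = v), ⟨?_, ?_⟩, ?_⟩
    · rintro ⟨X, hX⟩
      apply hcon
      exact ⟨X, fun u => (hX u).1, (hX v).2 (by simp)⟩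
    · intro u hu
      have hu' : u = v := by simpa using hu
      subst hu'
      exact hv
    · refine (weight_eq_one _).mpr ⟨v, ?_⟩
      funext w
      congr

theorem recogT_Ext : RecogT (A := Bool × Fin 3) (fun _ _ G σ =>
    Ext G (fun v => (σ v).1) (fun v => (σ v).2)) := by
  classical
  -- labels: (((S, st), X), W), E
  let A₁ : Type := (((Bool × Fin 3) × Bool) × Bool) × Bool
  have h1 := recogT_glob (A := (((Bool × Fin 3) × Bool) × Bool) × Bool)
    (fun a => a.1.1.2) (fun x => 1 ≤ x) (fun x => by omega)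
  have h2 := recogT_loc (A := (((Bool × Fin 3) × Bool) × Bool) × Bool) (n := 3)
    (fun a => ![a.1.1.2, a.1.2, (decide (a.1.1.1.2 = 0) && a.2) || a.1.2])
    (fun a x => (a.1.2 = true → a.1.1.1.2 = 1) ∧ (a.1.2 = true → x 0 = 1) ∧
      (a.1.1.2 = true → x 1 = 1) ∧ (a.2 = true ↔ x 0 = 0) ∧
      ((a.1.1.1.1 = true ∨ a.1.1.2 = true) → 1 ≤ x 2)) (fun a x => by
        have e1 : x 0 = 1 ↔ min (x 0) 2 = 1 := by omega
        have e2 : x 1 = 1 ↔ min (x 1) 2 = 1 := by omega
        have e3 : x 0 = 0 ↔ min (x 0) 2 = 0 := by omega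
        have e4 : 1 ≤ x 2 ↔ 1 ≤ min (x 2) 2 := by omega
        simp only [← e1, ← e2, ← e3, ← e4])
  have h3 := (h1.and h2).ex.ex.ex
  refine h3.congr fun V _ G σ => ?_
  unfold Ext
  refine exists_congr fun X => exists_congr fun W => ?_
  constructor
  · rintro ⟨g1, g2, g3, g4, g5⟩
    refine ⟨fun u => decide (cnt G X u = 0), (one_le_weight _).mpr g1, fun u =>
      ⟨g2 u, g3 u, g4 u, by simp, fun hu => ?_⟩⟩
    obtain ⟨w, hw, hw'⟩ := g5 u hu
    refine (one_le_cnt _ _ _).mpr ⟨w, hw, ?_⟩
    simpa using hw'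
  · rintro ⟨E, k1, k2⟩
    refine ⟨(one_le_weight _).mp k1, fun u => (k2 u).1, fun u => (k2 u).2.1,
      fun u => (k2 u).2.2.1, fun v hv => ?_⟩
    obtain ⟨w, hw, hw'⟩ := (one_le_cnt _ _ _).mp ((k2 v).2.2.2.2 hv)
    refine ⟨w, hw, ?_⟩
    have k3 := (k2 w).2.2.2.1
    simp only [Matrix.cons_val, Bool.or_eq_true, Bool.and_eq_true, decide_eq_true_eq] at hw'
    rcases hw' with ⟨e1, e2⟩ | e3
    · exact Or.inl ⟨e1, k3.mp e2⟩
    · exact Or.inr e3

theorem recogT_Good : RecogT (A := Bool × Fin 3) (fun _ _ G σ =>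
    Good G (fun v => (σ v).1) (fun v => (σ v).2)) := by
  have h1 := recogT_one
  have h2 := recogT_each (fun a => a.1 = true) (fun b _ => b = true) (fun _ _ => Iff.rfl)
  have h3 := recogT_each (fun a => a.2 = 1) (fun _ x => x = 0) (fun _ x => by omega)
  have h4 := recogT_each (fun a => a.2 = 2) (fun _ x => 2 ≤ x) (fun _ x => by omega)
  have h5 := recogT_Ext.not
  exact (h1.and (h2.and (h3.and (h4.and h5)))).congr fun V _ G σ => Iff.rfl

end RecogAux

open RecogAux in
/-- The property `Good` together with `QI` is recognisable on trees. -/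
theorem recog_main :
    Recog (A := Bool × Fin 3 × Bool) (fun _ _ G σ =>
      Good G (fun v => (σ v).1) (fun v => (σ v).2.1) ∧
        QI G (fun v => (σ v).1) (fun v => (σ v).2.1) (fun v => (σ v).2.2)) := by
  apply recog_of_recogT
  have h1 := recogT_Good.relabel (A' := Bool × Fin 3 × Bool) fun a => (a.1, a.2.1)
  exact h1.and recogT_QI

end Pool.Agent.Lib.FracIrr
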