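import Pool.Agent.Lib.MP_d53d42_lc.Cover

set_option autoImplicit false

/-!
# Integral rounding of functions on trees
-/

namespace Pool.Agent.Lib.FracIrr

open MeasureTheory

theorem tree_round {V : Type} [Fintype V] (G : SimpleGraph V) (hG : G.IsTree) (f : V → ℝ)
    (h0 : ∀ v, 0 ≤ f v) (h1 : ∀ v, f v ≤ 1) :
    (∃ X, QI G (suppOf f) (statOf G f) X ∧ (weight X : ℝ) ≤ ∑ v, f v) ∧
    (∀ v, suppOf f v = true → ∃ X, QI G (suppOf f) (statOf G f) X ∧ X v = true) ∧
    (∀ u, statOf G f u = 1 → ∃ X, QI G (suppOf f) (statOf G f) X ∧ cnt G X u = 0) ∧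
    (∀ u, statOf G f u = 2 → ∃ X, QI G (suppOf f) (statOf G f) X ∧ 2 ≤ cnt G X u) := by
  classical
  obtain ⟨B, hBm, hBsub, hBvol, hBdis, hBcov⟩ := tree_cover G hG f h0 h1
  set μ : Measure ℝ := volume.restrict (Set.Ico (0 : ℝ) 1) with hμ
  have hprob : IsProbabilityMeasure μ := ⟨by
    rw [hμ, Measure.restrict_apply_univ, Real.volume_Ico]; simp⟩
  have hμB : ∀ v, μ (B v) = ENNReal.ofReal (f v) := fun v => by
    rw [hμ, Measure.restrict_apply (hBm v), Set.inter_eq_left.mpr (hBsub v), hBvol]
  -- the marking at time `t`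
  set X : ℝ → V → Bool := fun t v => decide (0 < f v ∧ t ∈ B v) with hX
  have hXt : ∀ t v, X t v = true ↔ 0 < f v ∧ t ∈ B v := fun t v => by
    rw [hX]; exact decide_eq_true_iff
  -- almost every time is good
  have hA : ∀ᵐ t ∂μ, ∀ v, f v ≤ 0 → t ∉ B v := by
    rw [ae_all_iff]
    intro v
    by_cases hv : f v ≤ 0
    · have h2 : μ (B v) = 0 := by rw [hμB, ENNReal.ofReal_eq_zero]; exact hv
      filter_upwards [measure_eq_zero_iff_ae_notMem.mp h2] with t ht _
      exact ht
    · exact Filter.Eventually.of_forall fun t h => absurd h hv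
  have hB : ∀ᵐ t ∂μ, ∀ u x y, nsum G f u ≤ 1 → x ≠ y → (x = u ∨ G.Adj u x) →
      (y = u ∨ G.Adj u y) → t ∉ B x ∩ B y := by
    rw [ae_all_iff]; intro u
    rw [ae_all_iff]; intro x
    rw [ae_all_iff]; intro y
    by_cases h : nsum G f u ≤ 1 ∧ x ≠ y ∧ (x = u ∨ G.Adj u x) ∧ (y = u ∨ G.Adj u y)
    · have h2 : μ (B x ∩ B y) = 0 := by
        have h3 : μ (B x ∩ B y) ≤ volume (B x ∩ B y) := Measure.restrict_apply_le _ _
        rw [hBdis u h.1 x y h.2.1 h.2.2.1 h.2.2.2] at h3
        exact le_antisymm h3 bot_le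
      filter_upwards [measure_eq_zero_iff_ae_notMem.mp h2] with t ht _ _ _ _
      exact ht
    · refine Filter.Eventually.of_forall fun t a b c d => ?_
      exact absurd ⟨a, b, c, d⟩ h
  have hC : ∀ᵐ t ∂μ, ∀ u, 1 ≤ nsum G f u → ∃ x, (x = u ∨ G.Adj u x) ∧ t ∈ B x := by
    rw [ae_all_iff]; intro u
    by_cases h : 1 ≤ nsum G f u
    · have h2 := hBcov u h
      rw [measure_eq_zero_iff_ae_notMem] at h2
      rw [hμ, ae_restrict_iff' measurableSet_Ico]
      filter_upwards [h2] with t ht htI _
      by_contra hcon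
      push Not at hcon
      apply ht
      refine ⟨htI, fun hmem => ?_⟩
      rw [Set.mem_iUnion₂] at hmem
      obtain ⟨x, hx, hxt⟩ := hmem
      exact hcon x hx hxt
    · exact Filter.Eventually.of_forall fun t h' => absurd h' h
  have hgood : ∀ᵐ t ∂μ, QI G (suppOf f) (statOf G f) (X t) ∧ ∀ v, f v ≤ 0 → t ∉ B v := by
    filter_upwards [hA, hB, hC] with t hAt hBt hCt
    have hle : ∀ u, nsum G f u ≤ 1 → cnt G (X t) u ≤ 1 := by
      intro u hu
      unfold cnt
      rw [Finset.card_le_one]
      intro a ha b hb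
      rw [Finset.mem_filter] at ha hb
      by_contra hab
      exact hBt u a b hu hab ha.2.1 hb.2.1
        ⟨((hXt t a).mp ha.2.2).2, ((hXt t b).mp hb.2.2).2⟩
    have hge : ∀ u, 1 ≤ nsum G f u → 1 ≤ cnt G (X t) u := by
      intro u hu
      obtain ⟨x, hx, hxt⟩ := hCt u hu
      have hfx : 0 < f x := by
        by_contra hcon
        exact hAt x (not_lt.mp hcon) hxt
      unfold cnt
      exact Finset.card_pos.mpr ⟨x, Finset.mem_filter.mpr ⟨Finset.mem_univ _, hx,
        (hXt t x).mpr ⟨hfx, hxt⟩⟩⟩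
    refine ⟨fun u => ⟨?_, ?_, ?_, ?_⟩, hAt⟩
    · intro hu
      unfold suppOf
      exact decide_eq_true_iff.mpr ((hXt t u).mp hu).1
    · intro hu
      have h2 : nsum G f u = 1 := by
        unfold statOf at hu
        split_ifs at hu with ha hb
        · exact ha
        · exact absurd hu (by decide)
        · exact absurd hu (by decide)
      exact le_antisymm (hle u h2.le) (hge u h2.ge)
    · intro hu
      have h2 : nsum G f u < 1 := by
        unfold statOf at hu
        split_ifs at hu with ha hb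
        · exact absurd hu (by decide)
        · exact hb
        · exact absurd hu (by decide)
      exact hle u h2.le
    · intro hu
      have h2 : 1 ≤ nsum G f u := by
        unfold statOf at hu
        split_ifs at hu with ha hb
        · exact absurd hu (by decide)
        · exact absurd hu (by decide)
        · exact not_lt.mp hb
      exact hge u h2
  -- the counting function and its integral
  set g : Finset V → ℝ → ℝ := fun s t => ∑ v ∈ s, (B v).indicator (fun _ => (1 : ℝ)) t with hg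
  have hgint : ∀ s, Integrable (g s) μ := by
    intro s
    rw [hg]
    refine integrable_finsetSum _ fun v _ => ?_
    exact (integrable_const (1 : ℝ)).indicator (hBm v)
  have hgval : ∀ s, ∫ t, g s t ∂μ = ∑ v ∈ s, f v := by
    intro s
    rw [hg]
    simp only
    rw [integral_finsetSum _ fun v _ => (integrable_const (1 : ℝ)).indicator (hBm v)]
    refine Finset.sum_congr rfl fun v _ => ?_
    rw [integral_indicator (hBm v), setIntegral_const, smul_eq_mul, mul_one, Measure.real, hμB,
      ENNReal.toReal_ofReal (h0 v)]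
  have hgcard : ∀ s t, g s t = ((s.filter fun v => t ∈ B v).card : ℝ) := by
    intro s t
    rw [hg]
    simp only [Set.indicator_apply]
    rw [Finset.sum_boole]
  have hN : μ {t | ¬ (QI G (suppOf f) (statOf G f) (X t) ∧ ∀ v, f v ≤ 0 → t ∉ B v)} = 0 := hgood
  have hlow : ∀ s, ∃ t, (QI G (suppOf f) (statOf G f) (X t) ∧ ∀ v, f v ≤ 0 → t ∉ B v) ∧
      ((s.filter fun v => t ∈ B v).card : ℝ) ≤ ∑ v ∈ s, f v := by
    intro s
    obtain ⟨t, ht, hle⟩ := exists_notMem_null_le_integral (hgint s) hN
    rw [Set.mem_ofPred_eq, not_not] at ht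
    rw [hgval, hgcard] at hle
    exact ⟨t, ht, hle⟩
  have hhigh : ∀ s, ∃ t, (QI G (suppOf f) (statOf G f) (X t) ∧ ∀ v, f v ≤ 0 → t ∉ B v) ∧
      ∑ v ∈ s, f v ≤ ((s.filter fun v => t ∈ B v).card : ℝ) := by
    intro s
    obtain ⟨t, ht, hle⟩ := exists_notMem_null_integral_le (hgint s) hN
    rw [Set.mem_ofPred_eq, not_not] at ht
    rw [hgval, hgcard] at hle
    exact ⟨t, ht, hle⟩
  have hns : ∀ u, nsum G f u = ∑ x ∈ Finset.univ.filter (fun x => x = u ∨ G.Adj u x), f x := by
    intro u; rfl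
  refine ⟨?_, ?_, ?_, ?_⟩
  · obtain ⟨t, ht, hle⟩ := hlow Finset.univ
    refine ⟨X t, ht.1, le_trans ?_ hle⟩
    unfold weight
    exact_mod_cast Finset.card_le_card fun v hv => by
      rw [Finset.mem_filter] at hv ⊢
      exact ⟨hv.1, ((hXt t v).mp hv.2).2⟩
  · intro v hv
    have hv' : 0 < f v := decide_eq_true_iff.mp hv
    obtain ⟨t, ht, hle⟩ := hhigh {v}
    refine ⟨X t, ht.1, ?_⟩
    rw [Finset.sum_singleton] at hle
    have hpos : 0 < ((({v} : Finset V).filter fun v => t ∈ B v).card : ℝ) := lt_of_lt_of_le hv' hle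
    have hpos' : 0 < (({v} : Finset V).filter fun v => t ∈ B v).card := by exact_mod_cast hpos
    obtain ⟨x, hx⟩ := Finset.card_pos.mp hpos'
    rw [Finset.mem_filter, Finset.mem_singleton] at hx
    rw [hXt]
    refine ⟨hv', ?_⟩
    rw [← hx.1]
    exact hx.2
  · intro u hu
    have h2 : nsum G f u < 1 := by
      unfold statOf at hu
      split_ifs at hu with ha hb
      · exact absurd hu (by decide)
      · exact hb
      · exact absurd hu (by decide)
    obtain ⟨t, ht, hle⟩ := hlow (Finset.univ.filter (fun x => x = u ∨ G.Adj u x))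
    refine ⟨X t, ht.1, ?_⟩
    rw [← hns] at hle
    have h3 : (((Finset.univ.filter (fun x => x = u ∨ G.Adj u x)).filter
        fun v => t ∈ B v).card : ℝ) < 1 := lt_of_le_of_lt hle h2
    have h4 : ((Finset.univ.filter (fun x => x = u ∨ G.Adj u x)).filter
        fun v => t ∈ B v).card < 1 := by exact_mod_cast h3
    have h5 := Finset.card_eq_zero.mp (Nat.lt_one_iff.mp h4)
    unfold cnt
    rw [Finset.card_eq_zero, Finset.eq_empty_iff_forall_notMem]
    intro x hx
    rw [Finset.mem_filter] at hx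
    have : x ∈ (Finset.univ.filter (fun x => x = u ∨ G.Adj u x)).filter fun v => t ∈ B v :=
      Finset.mem_filter.mpr ⟨Finset.mem_filter.mpr ⟨Finset.mem_univ _, hx.2.1⟩,
        ((hXt t x).mp hx.2.2).2⟩
    rw [h5] at this
    exact absurd this (Finset.notMem_empty x)
  · intro u hu
    have h2 : 1 < nsum G f u := by
      unfold statOf at hu
      split_ifs at hu with ha hb
      · exact absurd hu (by decide)
      · exact absurd hu (by decide)
      · exact lt_of_le_of_ne (not_lt.mp hb) (Ne.symm ha)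
    obtain ⟨t, ht, hle⟩ := hhigh (Finset.univ.filter (fun x => x = u ∨ G.Adj u x))
    refine ⟨X t, ht.1, ?_⟩
    rw [← hns] at hle
    have h3 : 1 < (((Finset.univ.filter (fun x => x = u ∨ G.Adj u x)).filter
        fun v => t ∈ B v).card : ℝ) := lt_of_lt_of_le h2 hle
    have h4 : 1 < ((Finset.univ.filter (fun x => x = u ∨ G.Adj u x)).filter
        fun v => t ∈ B v).card := by exact_mod_cast h3
    refine le_trans (Nat.succ_le_of_lt h4) ?_
    unfold cnt
    refine Finset.card_le_card fun x hx => ?_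
    rw [Finset.mem_filter, Finset.mem_filter] at hx
    rw [Finset.mem_filter]
    refine ⟨Finset.mem_univ _, hx.1.2, (hXt t x).mpr ⟨?_, hx.2⟩⟩
    by_contra hcon
    exact ht.2 x (not_lt.mp hcon) hx.2

end Pool.Agent.Lib.FracIrr
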