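import Pool.Agent.Lib.MP_d53d42_lc.Types
import Pool.Agent.Lib.MP_d53d42_lc.Round

/-!
# MP_d53d42_lc: the value of `irf` on trees
-/

set_option autoImplicit false

namespace Pool.Agent.Lib.FracIrr

section value

variable {V : Type} [Fintype V] (G : SimpleGraph V)

/-- Indicator function of a marking. -/
noncomputable def vl_ind (X : V → Bool) : V → ℝ := fun v => if X v = true then 1 else 0

theorem vl_nsum_ind (X : V → Bool) (u : V) : nsum G (vl_ind X) u = cnt G X u := by
  classical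
  unfold nsum cnt vl_ind
  rw [Finset.sum_boole, Finset.filter_filter]

theorem vl_sum_ind (X : V → Bool) : ∑ v, vl_ind X v = weight X := by
  unfold vl_ind weight
  rw [Finset.sum_boole]

theorem vl_nsum_add (f g : V → ℝ) (a b : ℝ) (u : V) :
    nsum G (fun v => a * f v + b * g v) u = a * nsum G f u + b * nsum G g u := by
  unfold nsum
  rw [Finset.mul_sum, Finset.mul_sum, ← Finset.sum_add_distrib]

/-- A function of type `(S, st)`. -/
def vl_Type (S : V → Bool) (st : V → Fin 3) (f : V → ℝ) : Prop :=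
  (∀ v, 0 ≤ f v ∧ f v ≤ 1) ∧ (∀ v, S v = true → 0 < f v) ∧ (∀ v, S v = false → f v = 0) ∧
    (∀ u, st u = 0 → nsum G f u = 1) ∧ (∀ u, st u = 1 → nsum G f u < 1) ∧
    (∀ u, st u = 2 → 1 < nsum G f u)

theorem vl_suppOf {S : V → Bool} {st : V → Fin 3} {f : V → ℝ} (h : vl_Type G S st f) :
    suppOf f = S := by
  funext v
  unfold suppOf
  cases hv : S v
  · rw [h.2.2.1 v hv]; simp
  · simpa using h.2.1 v hv

theorem vl_statOf {S : V → Bool} {st : V → Fin 3} {f : V → ℝ} (h : vl_Type G S st f) :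
    statOf G f = st := by
  funext u
  unfold statOf
  obtain ⟨-, -, -, h0, h1, h2⟩ := h
  have hc : ∀ a : Fin 3, a = 0 ∨ a = 1 ∨ a = 2 := by decide
  rcases hc (st u) with hu | hu | hu
  · rw [if_pos (h0 u hu), hu]
  · rw [if_neg (h1 u hu).ne, if_pos (h1 u hu), hu]
  · rw [if_neg (h2 u hu).ne', if_neg (not_lt.mpr (h2 u hu).le), hu]

theorem vl_maximal {S : V → Bool} {st : V → Fin 3} {f : V → ℝ} (hg : Good G S st)
    (h : vl_Type G S st f) : MaximalIrredundant G f := by
  rw [maximal_iff, vl_suppOf G h, vl_statOf G h]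
  refine ⟨⟨h.1, fun v hv => ?_⟩, hg.2.2.2.2⟩
  have hS : S v = true := by
    cases hSv : S v
    · rw [h.2.2.1 v hSv] at hv
      exact absurd hv (lt_irrefl _)
    · rfl
  obtain ⟨u, hu, hu0⟩ := hg.1 v hS
  exact ⟨u, hu, h.2.2.2.1 u hu0⟩

theorem vl_mix {S : V → Bool} {st : V → Fin 3} {f : V → ℝ} (h : vl_Type G S st f)
    {X : V → Bool} (hX : QI G S st X) {e : ℝ} (he0 : 0 < e) (he1 : e ≤ 1) :
    vl_Type G S st (fun v => (1 - e) * vl_ind X v + e * f v) := by
  obtain ⟨ha, hb, hc, h0, h1, h2⟩ := h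
  have hi0 : ∀ v, 0 ≤ vl_ind X v := fun v => by unfold vl_ind; split_ifs <;> norm_num
  have hi1 : ∀ v, vl_ind X v ≤ 1 := fun v => by unfold vl_ind; split_ifs <;> norm_num
  refine ⟨fun v => ⟨?_, ?_⟩, fun v hv => ?_, fun v hv => ?_, fun u hu => ?_, fun u hu => ?_,
    fun u hu => ?_⟩
  · have := mul_nonneg (sub_nonneg.mpr he1) (hi0 v)
    have := mul_nonneg he0.le (ha v).1
    linarith
  · have := mul_le_mul_of_nonneg_left (hi1 v) (sub_nonneg.mpr he1)
    have := mul_le_mul_of_nonneg_left (ha v).2 he0.le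
    linarith
  · have := mul_nonneg (sub_nonneg.mpr he1) (hi0 v)
    have := mul_pos he0 (hb v hv)
    linarith
  · have hXv : X v = false := by
      cases hx : X v
      · rfl
      · have := (hX v).1 hx
        rw [hv] at this
        exact absurd this (by simp)
    simp only [hc v hv, vl_ind, hXv]
    simp
  · rw [vl_nsum_add, vl_nsum_ind, h0 u hu, (hX u).2.1 hu]
    push_cast
    ring
  · rw [vl_nsum_add, vl_nsum_ind]
    have hle : (cnt G X u : ℝ) ≤ 1 := by exact_mod_cast (hX u).2.2.1 hu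
    have := mul_le_mul_of_nonneg_left hle (sub_nonneg.mpr he1)
    have := mul_lt_mul_of_pos_left (h1 u hu) he0
    linarith
  · rw [vl_nsum_add, vl_nsum_ind]
    have hle : (1 : ℝ) ≤ (cnt G X u : ℝ) := by exact_mod_cast (hX u).2.2.2 hu
    have := mul_le_mul_of_nonneg_left hle (sub_nonneg.mpr he1)
    have := mul_lt_mul_of_pos_left (h2 u hu) he0
    linarith

theorem vl_exists_type {S : V → Bool} {st : V → Fin 3} (hg : Good G S st) {X₀ : V → Bool}
    (hX₀ : QI G S st X₀) : ∃ f, vl_Type G S st f := by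
  classical
  let P : Finset (V → Bool) := Finset.univ.filter fun X => QI G S st X
  have hP : ∀ X, X ∈ P ↔ QI G S st X := fun X => by simp [P]
  have hcard : 0 < (P.card : ℝ) := by
    have : 0 < P.card := Finset.card_pos.mpr ⟨X₀, (hP _).mpr hX₀⟩
    exact_mod_cast this
  let f : V → ℝ := fun v => (∑ X ∈ P, vl_ind X v) / P.card
  have hi0 : ∀ (X : V → Bool) v, 0 ≤ vl_ind X v := fun X v => by
    unfold vl_ind; split_ifs <;> norm_num
  have hi1 : ∀ (X : V → Bool) v, vl_ind X v ≤ 1 := fun X v => by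
    unfold vl_ind; split_ifs <;> norm_num
  have hns : ∀ u, nsum G f u = (∑ X ∈ P, (cnt G X u : ℝ)) / P.card := by
    intro u
    unfold nsum
    simp only [f]
    rw [← Finset.sum_div, Finset.sum_comm]
    congr 1
    refine Finset.sum_congr rfl fun X _ => ?_
    rw [← vl_nsum_ind]
    rfl
  have hconst : (∑ X ∈ P, (1 : ℝ)) = P.card := by simp
  refine ⟨f, fun v => ⟨?_, ?_⟩, fun v hv => ?_, fun v hv => ?_, fun u hu => ?_, fun u hu => ?_,
    fun u hu => ?_⟩
  · exact div_nonneg (Finset.sum_nonneg fun X _ => hi0 X v) hcard.le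
  · rw [div_le_one hcard, ← hconst]
    exact Finset.sum_le_sum fun X _ => hi1 X v
  · obtain ⟨X, hX, hXv⟩ := hg.2.1 v hv
    refine div_pos (Finset.sum_pos' (fun X _ => hi0 X v) ⟨X, (hP X).mpr hX, ?_⟩) hcard
    simp [vl_ind, hXv]
  · have : ∀ X ∈ P, vl_ind X v = 0 := by
      intro X hX
      have hX' := (hP X).mp hX
      unfold vl_ind
      rw [if_neg]
      intro hx
      have := (hX' v).1 hx
      rw [hv] at this
      exact absurd this (by simp)
    simp only [f]
    rw [Finset.sum_eq_zero this, zero_div]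
  · rw [hns, div_eq_one_iff_eq hcard.ne', ← hconst]
    refine Finset.sum_congr rfl fun X hX => ?_
    rw [((hP X).mp hX u).2.1 hu]
    norm_num
  · rw [hns, div_lt_one hcard, ← hconst]
    obtain ⟨X, hX, hXu⟩ := hg.2.2.1 u hu
    refine Finset.sum_lt_sum (fun X hX => ?_) ⟨X, (hP X).mpr hX, ?_⟩
    · exact_mod_cast ((hP X).mp hX u).2.2.1 hu
    · rw [hXu]; norm_num
  · rw [hns, one_lt_div hcard, ← hconst]
    obtain ⟨X, hX, hXu⟩ := hg.2.2.2.1 u hu
    refine Finset.sum_lt_sum (fun X hX => ?_) ⟨X, (hP X).mpr hX, ?_⟩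
    · exact_mod_cast ((hP X).mp hX u).2.2.2 hu
    · exact_mod_cast (by omega : 1 < cnt G X u)

/-- The set of candidate values. -/
def vl_K : Set ℕ := {k : ℕ | ∃ S st X, Good G S st ∧ QI G S st X ∧ weight X = k}

theorem vl_le {k : ℕ} (hk : k ∈ vl_K G) : irf G ≤ k := by
  obtain ⟨S, st, X, hg, hX, rfl⟩ := hk
  obtain ⟨f, hf⟩ := vl_exists_type G hg hX
  have hbdd : BddBelow {w : ℝ | ∃ f : V → ℝ, MaximalIrredundant G f ∧ w = ∑ v, f v} := by
    refine ⟨0, ?_⟩
    rintro w ⟨f, hf, rfl⟩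
    exact Finset.sum_nonneg fun v _ => (hf.1.1 v).1
  have hle : ∀ e : ℝ, 0 < e → e ≤ 1 →
      irf G ≤ (1 - e) * weight X + e * ∑ v, f v := by
    intro e he0 he1
    refine csInf_le hbdd ⟨_, vl_maximal G hg (vl_mix G hf hX he0 he1), ?_⟩
    rw [Finset.sum_add_distrib, ← Finset.mul_sum, ← Finset.mul_sum, vl_sum_ind]
  refine le_of_forall_pos_le_add fun δ hδ => ?_
  set w : ℝ := ∑ v, f v with hw
  have hw0 : 0 ≤ w := Finset.sum_nonneg fun v _ => (hf.1 v).1
  have hX0 : (0 : ℝ) ≤ weight X := Nat.cast_nonneg _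
  have hpos : 0 < w + 1 := by linarith
  set e : ℝ := min 1 (δ / (w + 1)) with he
  have he0 : 0 < e := lt_min one_pos (div_pos hδ hpos)
  have h1 := hle e he0 (min_le_left _ _)
  have h2 : e * w ≤ δ := by
    have : e ≤ δ / (w + 1) := min_le_right _ _
    have h3 : e * (w + 1) ≤ δ := by
      rw [le_div_iff₀ hpos] at this
      exact this
    nlinarith
  have h4 : (1 - e) * weight X ≤ weight X := by nlinarith
  linarith

theorem vl_ge (hG : G.IsTree) {f : V → ℝ} (hf : MaximalIrredundant G f) :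
    ∃ k ∈ vl_K G, (k : ℝ) ≤ ∑ v, f v := by
  have hm := (maximal_iff G f).mp hf
  obtain ⟨⟨X, hX, hXw⟩, h1, h2, h3⟩ := tree_round G hG f (fun v => (hf.1.1 v).1)
    (fun v => (hf.1.1 v).2)
  refine ⟨weight X, ⟨suppOf f, statOf G f, X, ⟨fun v hv => ?_, h1, h2, h3, hm.2⟩, hX, rfl⟩, hXw⟩
  have hv' : 0 < f v := by simpa [suppOf] using hv
  obtain ⟨u, hu, hu1⟩ := hf.1.2 v hv'
  exact ⟨u, hu, by simp [statOf, hu1]⟩

theorem vl_nonempty : (vl_K G).Nonempty := by
  classical
  -- a minimal dominating set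
  let Dom : Finset V → Prop := fun D => ∀ u, ∃ x ∈ D, x = u ∨ G.Adj u x
  have hex : ∃ D : Finset V, Dom D := ⟨Finset.univ, fun u => ⟨u, Finset.mem_univ _, Or.inl rfl⟩⟩
  obtain ⟨D, hD, hmin⟩ : ∃ D : Finset V, Dom D ∧ ∀ D', Dom D' → D.card ≤ D'.card := by
    have := Function.argminOn_mem (fun D : Finset V => D.card) {D | Dom D} hex
    refine ⟨_, this, fun D' hD' => ?_⟩
    exact Function.argminOn_le (fun D : Finset V => D.card) {D | Dom D} hD'
  let X : V → Bool := fun v => decide (v ∈ D)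
  have hcnt1 : ∀ u, 1 ≤ cnt G X u := by
    intro u
    obtain ⟨x, hx, hxu⟩ := hD u
    unfold cnt
    rw [Nat.one_le_iff_ne_zero, Finset.card_ne_zero]
    exact ⟨x, by simp [X, hx, hxu]⟩
  let st : V → Fin 3 := fun u => if cnt G X u = 1 then 0 else 2
  have hst0 : ∀ u, st u = 0 → cnt G X u = 1 := by
    intro u hu
    by_contra h
    simp [st, h] at hu
  have hst1 : ∀ u, st u ≠ 1 := by
    intro u hu
    by_cases h : cnt G X u = 1
    · simp [st, h] at hu
    · simp [st, h] at hu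
  have hQ : QI G X st X := fun u =>
    ⟨fun h => h, hst0 u, fun h => absurd h (hst1 u), fun _ => hcnt1 u⟩
  refine ⟨weight X, X, st, X, ⟨?_, ?_, ?_, ?_, ?_⟩, hQ, rfl⟩
  · intro v hv
    have hvD : v ∈ D := by simpa [X] using hv
    have hnd : ¬ Dom (D.erase v) := fun h => by
      have h1 := hmin _ h
      rw [Finset.card_erase_of_mem hvD] at h1
      have h2 : 0 < D.card := Finset.card_pos.mpr ⟨v, hvD⟩
      omega
    simp only [Dom, not_forall, not_exists, not_and] at hnd
    obtain ⟨u, hu⟩ := hnd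
    obtain ⟨x, hx, hxu⟩ := hD u
    have hxv : x = v := by
      by_contra hne
      exact hu x (Finset.mem_erase.mpr ⟨hne, hx⟩) hxu
    subst hxv
    refine ⟨u, ?_, ?_⟩
    · rcases hxu with h | h
      · exact Or.inl h.symm
      · exact Or.inr h.symm
    · have : cnt G X u = 1 := by
        unfold cnt
        rw [Finset.card_eq_one]
        refine ⟨x, ?_⟩
        ext y
        simp only [Finset.mem_filter, Finset.mem_univ, true_and, Finset.mem_singleton, X,
          decide_eq_true_eq]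
        constructor
        · rintro ⟨h1, h2⟩
          by_contra hne
          exact hu y (Finset.mem_erase.mpr ⟨hne, h2⟩) h1
        · rintro rfl
          exact ⟨hxu, hx⟩
      simp [st, this]
  · intro v hv
    exact ⟨X, hQ, hv⟩
  · intro u hu
    exact absurd hu (hst1 u)
  · intro u hu
    refine ⟨X, hQ, ?_⟩
    have h1 := hcnt1 u
    have h2 : cnt G X u ≠ 1 := by
      intro h
      simp [st, h] at hu
    omega
  · rintro ⟨Y, W, ⟨x, hx⟩, hW, -, hY, -⟩
    have h1 := hY x hx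
    have h0 : cnt G W x = 0 := by
      unfold cnt
      rw [Finset.card_eq_zero, Finset.filter_eq_empty_iff]
      rintro y - ⟨-, hy⟩
      exact hst1 y (hW y hy)
    omega

end value

theorem irf_eq {V : Type} [Fintype V] (G : SimpleGraph V) (hG : G.IsTree) :
    ∃ k : ℕ, irf G = k ∧
      IsLeast {k : ℕ | ∃ S st X, Good G S st ∧ QI G S st X ∧ weight X = k} k := by
  classical
  have hne := vl_nonempty G
  refine ⟨sInf (vl_K G), ?_, Nat.sInf_mem hne, fun k hk => Nat.sInf_le hk⟩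
  apply le_antisymm
  · exact vl_le G (Nat.sInf_mem hne)
  · obtain ⟨k, hk⟩ := hne
    obtain ⟨S, st, X, hg, hX, rfl⟩ := hk
    obtain ⟨f, hf⟩ := vl_exists_type G hg hX
    refine le_csInf ⟨_, f, vl_maximal G hg hf, rfl⟩ ?_
    rintro w ⟨g, hg', rfl⟩
    obtain ⟨k, hk, hkw⟩ := vl_ge G hG hg'
    refine le_trans ?_ hkw
    exact_mod_cast Nat.sInf_le hk

end Pool.Agent.Lib.FracIrr
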