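import Pool.Agent.Lib.MP_d53d42_lc.Cost
import Pool.Agent.Lib.MP_d53d42_lc.Value
import Pool.Agent.Lib.MP_d53d42_lc.Recog
import Pool.Agent.Lib.MP_d53d42_lc.Order
import Pool.Agent.Lib.MP_d53d42_lc.PT

/-!
# MP_d53d42_lc: assembly
-/

set_option autoImplicit false

namespace Pool.Agent.Lib.FracIrr

open Pool.Agent.PolyTime

theorem fn_sum_weight {V : Type} [Fintype V] (G : SimpleGraph V) (t : RT V) (ht : t.Represents G)
    (σ : V → Bool × Fin 3 × Bool) :
    (t.verts.map fun v => (if (σ v).2.2 = true then 1 else 0 : ℕ)).sum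
      = weight (fun v => (σ v).2.2) := by
  classical
  have h1 : t.verts.toFinset = Finset.univ := by
    ext v
    simp [ht.2.1 v]
  rw [← List.sum_toFinset _ ht.1, h1]
  unfold weight
  rw [Finset.sum_boole]
  rfl

theorem algo_correct : ∃ (k : ℕ) (i : Bool × Fin 3 × Bool → Fin k) (j : Fin k → Fin k → Fin k)
    (F : Fin k → Bool), ∀ V E, (graphOf V E).IsTree →
      irf (graphOf V E) = algo i j F (fun a => if a.2.2 = true then 1 else 0) (V, E) := by
  classical
  obtain ⟨k, i, j, F, hF⟩ := recog_main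
  refine ⟨k, i, j, fun m => decide (F m), fun V E hT => ?_⟩
  obtain ⟨t, ht, hrt⟩ := exists_rt V E hT
  obtain ⟨k₀, hk₀, ⟨S, st, X, hg, hX, hw⟩, hleast⟩ := irf_eq (graphOf V E) hT
  set wt : Bool × Fin 3 × Bool → ℕ := fun a => if a.2.2 = true then 1 else 0 with hwt
  have hrun : runTree (fun _ => costLeaf i wt) (costJoin j) (V, E) = t.cost i j wt := by
    rw [← cost_map i j wt Subtype.val t, hrt]
    exact (runTree_hom RT.leaf RT.join (fun _ => costLeaf i wt) (costJoin j)
      (RT.cost i j wt) (fun _ => rfl) (fun _ _ => rfl) (V, E)).symm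
  have hsum : ∀ σ : {v : ℕ // v ∈ V} → Bool × Fin 3 × Bool,
      (t.verts.map fun v => wt (σ v)).sum = weight (fun v => (σ v).2.2) :=
    fun σ => fn_sum_weight _ t ht σ
  have hinf : (Finset.univ.filter fun m => decide (F m) = true).inf (t.cost i j wt)
      = ((k₀ : ℕ) : WithTop ℕ) := by
    have hle : (Finset.univ.filter fun m => decide (F m) = true).inf (t.cost i j wt)
        ≤ ((k₀ : ℕ) : WithTop ℕ) := by
      let σ : {v : ℕ // v ∈ V} → Bool × Fin 3 × Bool := fun v => (S v, st v, X v)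
      have hFm : F ((t.map σ).eval i j) := (hF _ _ t ht σ).mp ⟨hg, hX⟩
      refine le_trans (Finset.inf_le (b := (t.map σ).eval i j) (by simpa using hFm)) ?_
      refine le_trans ((cost_spec i j wt t ht.1 _).1 σ rfl) ?_
      rw [hsum σ, ← hw]
    apply le_antisymm hle
    have hne : (Finset.univ.filter fun m => decide (F m) = true).Nonempty := by
      rw [Finset.nonempty_iff_ne_empty]
      intro h0
      rw [h0] at hle
      exact absurd hle (by simp)
    obtain ⟨m, hm, hm'⟩ := Finset.exists_mem_eq_inf _ hne (t.cost i j wt)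
    rw [hm'] at hle ⊢
    have hFm : F m := by simpa using hm
    have hnt : t.cost i j wt m ≠ ⊤ := fun h0 => by
      rw [h0] at hle
      exact absurd hle (by simp)
    obtain ⟨σ, hσ, hc⟩ := (cost_spec i j wt t ht.1 m).2 hnt
    rw [hc, hsum σ]
    have hgood := (hF _ _ t ht σ).mpr (by rw [hσ]; exact hFm)
    have := hleast ⟨_, _, _, hgood.1, hgood.2, rfl⟩
    exact_mod_cast this
  rw [hk₀]
  unfold algo outOf
  rw [hrun, hinf]
  rfl

/-! ### Trees on `Fin n` -/

theorem fn_nsum_equiv {V W : Type} [Fintype V] [Fintype W] (G : SimpleGraph V) (H : SimpleGraph W)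
    (e : V ≃ W) (h : ∀ x y, G.Adj x y ↔ H.Adj (e x) (e y)) (g : W → ℝ) (u : V) :
    nsum H g (e u) = nsum G (fun v => g (e v)) u := by
  classical
  unfold nsum
  symm
  refine Finset.sum_equiv e ?_ fun x _ => rfl
  intro x
  simp [h]

theorem fn_irr_equiv {V W : Type} [Fintype V] [Fintype W] (G : SimpleGraph V) (H : SimpleGraph W)
    (e : V ≃ W) (h : ∀ x y, G.Adj x y ↔ H.Adj (e x) (e y)) (g : W → ℝ) :
    Irredundant H g ↔ Irredundant G (fun v => g (e v)) := by
  unfold Irredundant
  constructor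
  · rintro ⟨h1, h2⟩
    refine ⟨fun v => h1 (e v), fun v hv => ?_⟩
    obtain ⟨u, hu, hu1⟩ := h2 (e v) hv
    refine ⟨e.symm u, ?_, ?_⟩
    · rcases hu with hu | hu
      · left; rw [hu, e.symm_apply_apply]
      · right; rw [h, e.apply_symm_apply]; exact hu
    · rw [← fn_nsum_equiv G H e h, e.apply_symm_apply]; exact hu1
  · rintro ⟨h1, h2⟩
    refine ⟨fun w => by simpa using h1 (e.symm w), fun w hw => ?_⟩
    obtain ⟨u, hu, hu1⟩ := h2 (e.symm w) (by simpa using hw)
    refine ⟨e u, ?_, ?_⟩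
    · rcases hu with hu | hu
      · left; rw [hu, e.apply_symm_apply]
      · right; rw [h, e.apply_symm_apply] at hu; exact hu
    · rw [fn_nsum_equiv G H e h]; exact hu1

theorem fn_max_equiv {V W : Type} [Fintype V] [Fintype W] (G : SimpleGraph V) (H : SimpleGraph W)
    (e : V ≃ W) (h : ∀ x y, G.Adj x y ↔ H.Adj (e x) (e y)) (g : W → ℝ)
    (hg : MaximalIrredundant H g) : MaximalIrredundant G (fun v => g (e v)) := by
  refine ⟨(fn_irr_equiv G H e h g).mp hg.1, fun f hf hle => ?_⟩
  have hf' : Irredundant H (fun w => f (e.symm w)) := by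
    rw [fn_irr_equiv G H e h]
    simpa using hf
  have := hg.2 _ hf' (fun w => by simpa using hle (e.symm w))
  funext v
  have := congrFun this (e v)
  simpa using this

theorem irf_equiv {V W : Type} [Fintype V] [Fintype W] (G : SimpleGraph V) (H : SimpleGraph W)
    (e : V ≃ W) (h : ∀ x y, G.Adj x y ↔ H.Adj (e x) (e y)) : irf G = irf H := by
  unfold irf
  congr 1
  ext w
  constructor
  · rintro ⟨f, hf, rfl⟩
    refine ⟨fun w => f (e.symm w), fn_max_equiv H G e.symm (fun x y => ?_) f hf, ?_⟩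
    · rw [h]; simp
    · exact (Equiv.sum_comp e.symm f).symm
  · rintro ⟨g, hg, rfl⟩
    exact ⟨fun v => g (e v), fn_max_equiv G H e h g hg, (Equiv.sum_comp e g).symm⟩

open Classical in
/-- The list of edges `(i, j)`, `i < j`, of a graph on `Fin n`. -/
noncomputable def edgeList {n : ℕ} (T : SimpleGraph (Fin n)) : List (ℕ × ℕ) :=
  ((Finset.univ.filter fun p : Fin n × Fin n => p.1 < p.2 ∧ T.Adj p.1 p.2).toList).map
    fun p => ((p.1 : ℕ), (p.2 : ℕ))

theorem mem_edgeList {n : ℕ} (T : SimpleGraph (Fin n)) (a b : Fin n) :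
    ((a : ℕ), (b : ℕ)) ∈ edgeList T ↔ a < b ∧ T.Adj a b := by
  unfold edgeList
  simp only [List.mem_map, Finset.mem_toList, Finset.mem_filter, Finset.mem_univ, true_and,
    Prod.mk.injEq, Prod.exists]
  constructor
  · rintro ⟨x, y, ⟨h1, h2⟩, h3, h4⟩
    have hx : x = a := Fin.ext h3
    have hy : y = b := Fin.ext h4
    subst hx hy
    exact ⟨h1, h2⟩
  · rintro ⟨h1, h2⟩
    exact ⟨a, b, ⟨h1, h2⟩, rfl, rfl⟩

/-- The vertices `0, …, n-1` of the input graph. -/
def finEquiv (n : ℕ) : Fin n ≃ {v : ℕ // v ∈ List.range n} where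
  toFun a := ⟨a, List.mem_range.mpr a.2⟩
  invFun v := ⟨v.1, List.mem_range.mp v.2⟩
  left_inv _ := rfl
  right_inv _ := rfl

theorem graphOf_edgeList {n : ℕ} (T : SimpleGraph (Fin n)) (x y : Fin n) :
    T.Adj x y ↔ (graphOf (List.range n) (edgeList T)).Adj (finEquiv n x) (finEquiv n y) := by
  show _ ↔ (finEquiv n x ≠ finEquiv n y ∧ (((x : ℕ), (y : ℕ)) ∈ edgeList T ∨
    ((y : ℕ), (x : ℕ)) ∈ edgeList T))
  rw [mem_edgeList, mem_edgeList]
  constructor
  · intro h
    refine ⟨fun he => h.ne ((finEquiv n).injective he), ?_⟩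
    rcases lt_or_gt_of_ne h.ne with hlt | hlt
    · exact Or.inl ⟨hlt, h⟩
    · exact Or.inr ⟨hlt, h.symm⟩
  · rintro ⟨-, ⟨-, h⟩ | ⟨-, h⟩⟩
    · exact h
    · exact h.symm

theorem isTree_graphOf {n : ℕ} (T : SimpleGraph (Fin n)) (hT : T.IsTree) :
    (graphOf (List.range n) (edgeList T)).IsTree := by
  let e : T ≃g graphOf (List.range n) (edgeList T) :=
    { finEquiv n with map_rel_iff' := fun {x y} => (graphOf_edgeList T x y).symm }
  exact (SimpleGraph.Iso.isTree_iff e).mp hT

theorem size_input {n : ℕ} (T : SimpleGraph (Fin n)) :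
    (bits (enc (List.range n, edgeList T))).length ≤ 20 * (n + 1) ^ 3 := by
  classical
  show size (enc (List.range n, edgeList T)) ≤ _
  rw [size_pair]
  have h1 : size (enc (List.range n)) ≤ n * (4 * n + 2) + 1 := by
    have := size_list_le (List.range n) (4 * n + 1) (fun x hx => by
      have := size_nat_le x
      have := List.mem_range.mp hx
      omega)
    rw [List.length_range] at this
    exact this
  have hlen : (edgeList T).length ≤ n * n := by
    unfold edgeList
    rw [List.length_map, Finset.length_toList]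
    refine le_trans (Finset.card_le_univ _) ?_
    simp
  have h2 : size (enc (edgeList T)) ≤ (edgeList T).length * (8 * n + 4) + 1 := by
    refine size_list_le (edgeList T) (8 * n + 3) (fun x hx => ?_)
    unfold edgeList at hx
    rw [List.mem_map] at hx
    obtain ⟨p, -, rfl⟩ := hx
    rw [size_pair]
    have ha := size_nat_le (p.1 : ℕ)
    have hb := size_nat_le (p.2 : ℕ)
    have := p.1.2
    have := p.2.2
    omega
  have h3 : (edgeList T).length * (8 * n + 4) ≤ n * n * (8 * n + 4) := Nat.mul_le_mul_right _ hlen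
  have : n * (4 * n + 2) + 1 + (n * n * (8 * n + 4) + 1) + 1 ≤ 20 * (n + 1) ^ 3 := by
    ring_nf
    nlinarith [Nat.zero_le (n ^ 3), Nat.zero_le (n ^ 2)]
  omega

theorem final :
    (∃ A : List ℕ × List (ℕ × ℕ) → ℕ, IsPolyTime enc enc A ∧
      ∀ V E, (graphOf V E).IsTree → irf (graphOf V E) = A (V, E)) ∧
    (∃ B : (List ℕ × List (ℕ × ℕ)) × ℚ → Bool, IsPolyTime enc enc B ∧
      ∀ V E (q : ℚ), (graphOf V E).IsTree → (B ((V, E), q) = true ↔ irf (graphOf V E) ≤ q)) ∧
    (∀ (n : ℕ) (T : SimpleGraph (Fin n)), T.IsTree →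
      (graphOf (List.range n) (edgeList T)).IsTree ∧
      irf T = irf (graphOf (List.range n) (edgeList T)) ∧
      (bits (enc (List.range n, edgeList T))).length ≤ 20 * (n + 1) ^ 3) := by
  obtain ⟨k, i, j, F, h⟩ := algo_correct
  have hA := algo_ptime i j F (fun a : Bool × Fin 3 × Bool => if a.2.2 = true then 1 else 0)
  refine ⟨⟨_, hA.isPolyTime, h⟩, ⟨fun p => decide ((algo i j F
    (fun a : Bool × Fin 3 × Bool => if a.2.2 = true then 1 else 0) p.1 : ℚ) ≤ p.2), ?_, ?_⟩,
    fun n T hT => ⟨isTree_graphOf T hT, irf_equiv _ _ (finEquiv n) (graphOf_edgeList T),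
      size_input T⟩⟩
  · exact (rat_decide_ptime.comp ((hA.comp PTime.fst).pair PTime.snd)).isPolyTime
  · intro V E q hT
    rw [h V E hT, decide_eq_true_eq]
    constructor
    · intro hq
      exact_mod_cast hq
    · intro hq
      exact_mod_cast hq

end Pool.Agent.Lib.FracIrr
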