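import Pool.Agent.Lib.MP_d53d42_lc.Defs

/-!
# MP_d53d42_lc: maximality depends only on the type
-/

set_option autoImplicit false

namespace Pool.Agent.Lib.FracIrr

namespace Types

variable {V : Type} [Fintype V] (G : SimpleGraph V)

/-- `x` is in the closed neighbourhood of `u`. -/
def R (u x : V) : Prop := x = u ∨ G.Adj u x

omit [Fintype V] in
theorem R_symm {u x : V} (h : R G u x) : R G x u := by
  rcases h with h | h
  · exact Or.inl h.symm
  · exact Or.inr h.symm

theorem nsum_add (f g : V → ℝ) (u : V) :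
    nsum G (fun v => f v + g v) u = nsum G f u + nsum G g u := by
  classical
  unfold nsum
  rw [Finset.sum_add_distrib]

theorem nsum_nonneg {f : V → ℝ} (h : ∀ v, 0 ≤ f v) (u : V) : 0 ≤ nsum G f u := by
  classical
  exact Finset.sum_nonneg fun x _ => h x

theorem le_nsum {f : V → ℝ} (h : ∀ v, 0 ≤ f v) {u v : V} (huv : R G u v) :
    f v ≤ nsum G f u := by
  classical
  unfold nsum
  exact Finset.single_le_sum (fun x _ => h x) (Finset.mem_filter.mpr ⟨Finset.mem_univ _, huv⟩)

theorem nsum_eq_zero {f : V → ℝ} {u : V} (h : ∀ x, R G u x → f x = 0) : nsum G f u = 0 := by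
  classical
  unfold nsum
  exact Finset.sum_eq_zero fun x hx => h x (Finset.mem_filter.mp hx).2

theorem nsum_eq_single {f : V → ℝ} {u x : V} (hx : R G u x)
    (h : ∀ y, R G u y → y ≠ x → f y = 0) : nsum G f u = f x := by
  classical
  unfold nsum
  refine Finset.sum_eq_single_of_mem x (Finset.mem_filter.mpr ⟨Finset.mem_univ _, hx⟩) ?_
  intro y hy hne
  exact h y (Finset.mem_filter.mp hy).2 hne

theorem cnt_eq_zero {X : V → Bool} {u : V} :
    cnt G X u = 0 ↔ ∀ x, R G u x → X x = false := by
  classical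
  unfold cnt
  rw [Finset.card_eq_zero, Finset.filter_eq_empty_iff]
  constructor
  · intro h x hx
    by_contra hc
    exact h (Finset.mem_univ x) ⟨hx, by simpa using hc⟩
  · rintro h x _ ⟨hx, hx'⟩
    rw [h x hx] at hx'
    exact Bool.noConfusion hx'

theorem cnt_eq_one {X : V → Bool} {u : V} :
    cnt G X u = 1 ↔ ∃ x, R G u x ∧ X x = true ∧ ∀ y, R G u y → X y = true → y = x := by
  classical
  unfold cnt
  rw [Finset.card_eq_one]
  constructor
  · rintro ⟨x, hx⟩
    have h1 : x ∈ ({x} : Finset V) := Finset.mem_singleton_self x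
    rw [← hx] at h1
    have h2 := (Finset.mem_filter.mp h1).2
    refine ⟨x, h2.1, h2.2, ?_⟩
    intro y hy hy'
    have : y ∈ ({x} : Finset V) := by
      rw [← hx]
      exact Finset.mem_filter.mpr ⟨Finset.mem_univ _, hy, hy'⟩
    exact Finset.mem_singleton.mp this
  · rintro ⟨x, hx, hx', h⟩
    refine ⟨x, ?_⟩
    ext y
    rw [Finset.mem_filter, Finset.mem_singleton]
    constructor
    · rintro ⟨_, hy, hy'⟩
      exact h y hy hy'
    · rintro rfl
      exact ⟨Finset.mem_univ _, hx, hx'⟩

theorem stat_one {f : V → ℝ} {u : V} : statOf G f u = 1 ↔ nsum G f u < 1 := by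
  unfold statOf
  by_cases h1 : nsum G f u = 1
  · simp [h1]
  · by_cases h2 : nsum G f u < 1
    · simp [h1, h2]
    · simp [h1, h2]

theorem stat_zero {f : V → ℝ} {u : V} : statOf G f u = 0 ↔ nsum G f u = 1 := by
  unfold statOf
  by_cases h1 : nsum G f u = 1
  · simp [h1]
  · by_cases h2 : nsum G f u < 1
    · simp [h1, h2]
    · simp [h1, h2]

omit [Fintype V] in
theorem supp_iff {f : V → ℝ} {v : V} : suppOf f v = true ↔ 0 < f v := by
  unfold suppOf
  simp

/-- If the type can be extended, the function is not maximal. -/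
theorem not_maximal {f : V → ℝ} (hf : Irredundant G f) (hE : Ext G (suppOf f) (statOf G f)) :
    ¬ MaximalIrredundant G f := by
  classical
  rintro ⟨_, hmax⟩
  obtain ⟨X, W, ⟨x₀, hx₀⟩, hWA, hW1, hX1, hdom⟩ := hE
  have hu : ∀ x, X x = true →
      ∃ u, R G x u ∧ W u = true ∧ ∀ y, R G x y → W y = true → y = u :=
    fun x hx => (cnt_eq_one G).mp (hX1 x hx)
  let uu : V → V := fun x => if hx : X x = true then Classical.choose (hu x hx) else x
  have huu : ∀ x, X x = true →
      R G x (uu x) ∧ W (uu x) = true ∧ ∀ y, R G x y → W y = true → y = uu x := by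
    intro x hx
    have e : uu x = Classical.choose (hu x hx) := dif_pos hx
    rw [e]
    exact Classical.choose_spec (hu x hx)
  let h : V → ℝ := fun x => if X x = true then 1 - nsum G f (uu x) else 0
  have hpos : ∀ x, X x = true → 0 < h x := by
    intro x hx
    have h1 : nsum G f (uu x) < 1 := (stat_one G).mp (hWA _ (huu x hx).2.1)
    have e : h x = 1 - nsum G f (uu x) := if_pos hx
    rw [e]; linarith
  have hzero : ∀ x, X x = false → h x = 0 := by
    intro x hx
    have : ¬ X x = true := by rw [hx]; exact Bool.false_ne_true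
    exact if_neg this
  have hnn : ∀ x, 0 ≤ h x := by
    intro x
    by_cases hx : X x = true
    · exact (hpos x hx).le
    · exact (hzero x (by simpa using hx)).ge
  let g : V → ℝ := fun v => f v + h v
  have hgn : ∀ v, 0 ≤ g v := fun v => add_nonneg (hf.1 v).1 (hnn v)
  have key : ∀ v, 0 < g v → ∃ u, R G v u ∧ nsum G g u = 1 := by
    intro v hv
    have hSX : suppOf f v = true ∨ X v = true := by
      by_contra hc
      rw [not_or] at hc
      have h1 : ¬ 0 < f v := fun hh => hc.1 (supp_iff.mpr hh)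
      have h2 : h v = 0 := hzero v (by simpa using hc.2)
      have h3 : f v = 0 := le_antisymm (not_lt.mp h1) (hf.1 v).1
      have : g v = 0 := by change f v + h v = 0; rw [h2, h3, add_zero]
      linarith
    obtain ⟨u, huv, hu'⟩ := hdom v hSX
    refine ⟨u, huv, ?_⟩
    change nsum G (fun v => f v + h v) u = 1
    rw [nsum_add]
    rcases hu' with ⟨h0, hc⟩ | hWu
    · rw [(stat_zero G).mp h0, nsum_eq_zero G, add_zero]
      intro x hx
      exact hzero x ((cnt_eq_zero G).mp hc x hx)
    · obtain ⟨x, hx, hXx, huniq⟩ := (cnt_eq_one G).mp (hW1 u hWu)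
      rw [nsum_eq_single G (f := h) hx]
      · have e1 : u = uu x := (huu x hXx).2.2 u (R_symm G hx) hWu
        have e2 : h x = 1 - nsum G f (uu x) := if_pos hXx
        rw [e2, ← e1]; ring
      · intro y hy hne
        apply hzero
        by_contra hc
        exact hne (huniq y hy (by simpa using hc))
  have hg : Irredundant G g := by
    refine ⟨fun v => ⟨hgn v, ?_⟩, key⟩
    rcases (hgn v).eq_or_lt with h0 | hv
    · rw [← h0]; exact zero_le_one
    · obtain ⟨u, huv, hu1⟩ := key v hv
      rw [← hu1]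
      exact le_nsum G hgn (R_symm G huv)
  have heq := hmax g hg (fun v => le_add_of_nonneg_right (hnn v))
  have h1 : g x₀ = f x₀ := congrFun heq x₀
  have h2 := hpos x₀ hx₀
  have h3 : f x₀ + h x₀ = f x₀ := h1
  linarith

/-- If the function is irredundant but not maximal, the type can be extended. -/
theorem ext_of_not_maximal {f g : V → ℝ} (hf : Irredundant G f) (hg : Irredundant G g)
    (hfg : ∀ v, f v ≤ g v) (hne : g ≠ f) : Ext G (suppOf f) (statOf G f) := by
  classical
  let h : V → ℝ := fun v => g v - f v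
  have hnn : ∀ v, 0 ≤ h v := fun v => sub_nonneg.mpr (hfg v)
  have hgf : ∀ u, nsum G g u = nsum G f u + nsum G h u := by
    intro u
    rw [← nsum_add]
    congr 1
    funext v
    change g v = f v + (g v - f v)
    ring
  obtain ⟨x₀, hx₀⟩ : ∃ x, 0 < h x := by
    by_contra hc
    push Not at hc
    apply hne
    funext v
    have : g v - f v ≤ 0 := hc v
    exact le_antisymm (by linarith) (hfg v)
  let V' : V → Prop := fun v => (0 < f v ∨ 0 < h v) ∧
    ∀ u, R G v u → nsum G f u = 1 → ∃ x, R G u x ∧ 0 < h x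
  let W0 : Finset V := Finset.univ.filter fun u => nsum G f u < 1 ∧ nsum G g u = 1
  have hdom0 : ∀ v, V' v → ∃ u ∈ W0, R G v u := by
    rintro v ⟨hv, hv'⟩
    have hgv : 0 < g v := by
      rcases hv with hv | hv
      · exact lt_of_lt_of_le hv (hfg v)
      · have h1 : 0 < g v - f v := hv
        have := (hf.1 v).1
        linarith
    obtain ⟨u, huv, hu1⟩ := hg.2 v hgv
    refine ⟨u, ?_, huv⟩
    rw [Finset.mem_filter]
    refine ⟨Finset.mem_univ _, ?_, hu1⟩
    rcases lt_trichotomy (nsum G f u) 1 with hlt | heq | hgt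
    · exact hlt
    · exfalso
      obtain ⟨x, hx, hxh⟩ := hv' u huv heq
      have h1 := hgf u
      rw [hu1, heq] at h1
      have h2 := le_nsum G hnn hx
      linarith
    · exfalso
      have h1 := hgf u
      have h2 := nsum_nonneg G hnn u
      rw [hu1] at h1
      linarith
  -- a minimal dominating subset
  let P : Finset V → Prop := fun W => ∀ v, V' v → ∃ u ∈ W, R G v u
  have hne' : (W0.powerset.filter P).Nonempty :=
    ⟨W0, Finset.mem_filter.mpr ⟨Finset.mem_powerset.mpr (Finset.Subset.refl _), hdom0⟩⟩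
  obtain ⟨W, hWmem, hWmin⟩ := Finset.exists_min_image _ Finset.card hne'
  rw [Finset.mem_filter, Finset.mem_powerset] at hWmem
  obtain ⟨hWW0, hPW⟩ := hWmem
  have hv : ∀ u ∈ W, ∃ v, V' v ∧ R G v u ∧ ∀ y ∈ W, R G v y → y = u := by
    intro u hu
    have h1 : ¬ P (W.erase u) := by
      intro hP
      have h2 := hWmin (W.erase u) (Finset.mem_filter.mpr
        ⟨Finset.mem_powerset.mpr ((Finset.erase_subset u W).trans hWW0), hP⟩)
      have h3 := Finset.card_erase_lt_of_mem hu
      omega
    change ¬ ∀ v, V' v → ∃ u' ∈ W.erase u, R G v u' at h1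
    push Not at h1
    obtain ⟨v, hv, hv'⟩ := h1
    obtain ⟨u', hu', hvu'⟩ := hPW v hv
    have e : u' = u := by
      by_contra hne
      exact hv' u' (Finset.mem_erase.mpr ⟨hne, hu'⟩) hvu'
    rw [e] at hvu'
    refine ⟨v, hv, hvu', ?_⟩
    intro y hy hvy
    by_contra hne
    exact hv' y (Finset.mem_erase.mpr ⟨hne, hy⟩) hvy
  choose! vv hvV' hvR hvuniq using hv
  let X : Finset V := W.image vv
  have hxX : ∀ x, x ∈ X ↔ ∃ u ∈ W, vv u = x := fun x => Finset.mem_image
  have hWne : ∃ u, u ∈ W := by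
    have h0 : V' x₀ := ⟨Or.inr hx₀, fun u hu _ => ⟨x₀, R_symm G hu, hx₀⟩⟩
    obtain ⟨u, hu, _⟩ := hPW x₀ h0
    exact ⟨u, hu⟩
  refine ⟨fun x => decide (x ∈ X), fun u => decide (u ∈ W), ?_, ?_, ?_, ?_, ?_⟩
  · obtain ⟨u, hu⟩ := hWne
    exact ⟨vv u, by simpa using (hxX _).mpr ⟨u, hu, rfl⟩⟩
  · intro u hu
    have hu' : u ∈ W := by simpa using hu
    exact (stat_one G).mpr (Finset.mem_filter.mp (hWW0 hu')).2.1
  · intro u hu
    have hu' : u ∈ W := by simpa using hu
    rw [cnt_eq_one]
    refine ⟨vv u, R_symm G (hvR u hu'), by simpa using (hxX _).mpr ⟨u, hu', rfl⟩, ?_⟩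
    intro y hy hyX
    have hyX' : y ∈ X := by simpa using hyX
    obtain ⟨u', hu'W, rfl⟩ := (hxX y).mp hyX'
    have e : u = u' := hvuniq u' hu'W u hu' (R_symm G hy)
    rw [e]
  · intro x hx
    have hx' : x ∈ X := by simpa using hx
    obtain ⟨u, huW, rfl⟩ := (hxX x).mp hx'
    rw [cnt_eq_one]
    refine ⟨u, hvR u huW, by simpa using huW, ?_⟩
    intro y hy hyW
    exact hvuniq u huW y (by simpa using hyW) hy
  · intro v hv
    by_cases hV' : V' v
    · obtain ⟨u, huW, hvu⟩ := hPW v hV'
      exact ⟨u, hvu, Or.inr (by simpa using huW)⟩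
    · have hpos : 0 < f v ∨ 0 < h v := by
        rcases hv with hv | hv
        · exact Or.inl (supp_iff.mp hv)
        · have hv' : v ∈ X := by simpa using hv
          obtain ⟨u, huW, rfl⟩ := (hxX v).mp hv'
          exact (hvV' u huW).1
      have h1 : ¬ ∀ u, R G v u → nsum G f u = 1 → ∃ x, R G u x ∧ 0 < h x :=
        fun hc => hV' ⟨hpos, hc⟩
      push Not at h1
      obtain ⟨u, hvu, hu1, hux⟩ := h1
      refine ⟨u, hvu, Or.inl ⟨(stat_zero G).mpr hu1, ?_⟩⟩
      rw [cnt_eq_zero]
      intro x hx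
      by_contra hc
      have hxX' : x ∈ X := by simpa using hc
      obtain ⟨u', huW, rfl⟩ := (hxX x).mp hxX'
      obtain ⟨y, hy, hyh⟩ := (hvV' u' huW).2 u (R_symm G hx) hu1
      exact absurd hyh (not_lt.mpr (hux y hy))

end Types

theorem maximal_iff {V : Type} [Fintype V] (G : SimpleGraph V) (f : V → ℝ) :
    MaximalIrredundant G f ↔ Irredundant G f ∧ ¬ Ext G (suppOf f) (statOf G f) := by
  constructor
  · intro h
    exact ⟨h.1, fun hE => Types.not_maximal G h.1 hE h⟩
  · rintro ⟨hf, hE⟩
    refine ⟨hf, ?_⟩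
    intro g hg hfg
    by_contra hne
    exact hE (Types.ext_of_not_maximal G hf hg hfg hne)

end Pool.Agent.Lib.FracIrr
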